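import Pool.Agent.TH940.Fin

/-!
Characters of conductor a power of two.
-/

set_option autoImplicit false

open Finset

namespace Pool.Agent.Y683.NF

open Pool.Agent.TH940

/-- primitive characters modulo `2 ^ (n + 3)` have order divisible by `2 ^ (n + 1)` -/
theorem two_pow_order {n : ℕ} [NeZero (2 ^ (n + 3))]
    (χ : DirichletCharacter ℂ (2 ^ (n + 3))) (hχ : χ.IsPrimitive) : 2 ^ (n + 1) ∣ orderOf χ := by
  classical
  by_contra hnd
  have h1 : orderOf χ ∣ 2 ^ (n + 2) := by
    have := order_dvd χ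
    rwa [Nat.totient_prime_pow_succ Nat.prime_two, Nat.add_one_sub_one, mul_one] at this
  obtain ⟨c, hc, hcc⟩ := (Nat.dvd_prime_pow Nat.prime_two).1 h1
  have hcn : c ≤ n := by
    by_contra h
    exact hnd (by rw [hcc]; exact pow_dvd_pow _ (by omega))
  have h16 : χ ^ (2 ^ n) = 1 := by
    obtain ⟨e, he⟩ : orderOf χ ∣ 2 ^ n := by rw [hcc]; exact pow_dvd_pow _ hcn
    rw [he, pow_mul, pow_orderOf_eq_one, one_pow]
  have hNZ : NeZero (2 ^ (n + 2)) := ⟨by positivity⟩
  have hdvd : 2 ^ (n + 2) ∣ 2 ^ (n + 3) := pow_dvd_pow _ (by omega)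
  have h5u : IsUnit (5 : ZMod (2 ^ (n + 3))) := by
    have h : Nat.Coprime 5 (2 ^ (n + 3)) := Nat.Coprime.pow_right _ (by norm_num)
    have := (ZMod.isUnit_iff_coprime 5 (2 ^ (n + 3))).2 h
    exact_mod_cast this
  obtain ⟨u, hu⟩ := h5u
  -- the elements of the kernel
  have hker : ∀ x : (ZMod (2 ^ (n + 3)))ˣ, ZMod.unitsMap hdvd x = 1 → x = 1 ∨
      (x : ZMod (2 ^ (n + 3))) = 1 + 2 ^ (n + 2) := by
    intro x hx
    have h3 : ((x : ZMod (2 ^ (n + 3))).val : ZMod (2 ^ (n + 2))) = 1 := by
      have h4 := congrArg Units.val hx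
      rw [ZMod.unitsMap_val, Units.val_one, ZMod.cast_eq_val] at h4
      exact h4
    have h5 : ((((x : ZMod (2 ^ (n + 3))).val : ℤ) - 1 : ℤ) : ZMod (2 ^ (n + 2))) = 0 := by
      push_cast
      rw [h3, sub_self]
    rw [ZMod.intCast_zmod_eq_zero_iff_dvd] at h5
    obtain ⟨t, ht⟩ := h5
    have h6 : (x : ZMod (2 ^ (n + 3))) = 1 + (2 : ZMod (2 ^ (n + 3))) ^ (n + 2) * t := by
      have h7 : ((((x : ZMod (2 ^ (n + 3))).val : ℤ)) : ZMod (2 ^ (n + 3))) =
          ((1 + ((2 ^ (n + 2) : ℕ) : ℤ) * t : ℤ) : ZMod (2 ^ (n + 3))) := by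
        rw [← ht]; congr 1; ring
      rw [Int.cast_natCast, ZMod.natCast_zmod_val] at h7
      rw [h7]
      push_cast
      rfl
    have hp0 : (2 : ZMod (2 ^ (n + 3))) ^ (n + 2) * 2 = 0 := by
      rw [← pow_succ]
      have := ZMod.natCast_self (2 ^ (n + 3))
      push_cast at this
      exact this
    rcases Int.even_or_odd' t with ⟨s, hs | hs⟩
    · left
      apply Units.ext
      rw [h6, hs, Units.val_one]
      push_cast
      rw [← mul_assoc, hp0, zero_mul, add_zero]
    · right
      rw [h6, hs]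
      push_cast
      rw [mul_add, ← mul_assoc, hp0, zero_mul, zero_add, mul_one]
  -- the power of five
  have hord3 : orderOf (5 : ZMod (2 ^ (n + 3))) = 2 ^ (n + 1) := ZMod.orderOf_five (n + 1)
  have hord2 : orderOf (5 : ZMod (2 ^ (n + 2))) = 2 ^ n := ZMod.orderOf_five n
  have hux : ZMod.unitsMap hdvd (u ^ (2 ^ n)) = 1 := by
    apply Units.ext
    rw [map_pow, Units.val_pow_eq_pow_val, ZMod.unitsMap_val, hu, Units.val_one]
    have h7 : ((5 : ZMod (2 ^ (n + 3))).cast : ZMod (2 ^ (n + 2))) = 5 := by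
      have := ZMod.cast_natCast (R := ZMod (2 ^ (n + 2))) hdvd 5
      exact_mod_cast this
    rw [h7, ← hord2]
    exact pow_orderOf_eq_one _
  have hu1 : u ^ (2 ^ n) ≠ 1 := by
    intro h
    have h8 := congrArg Units.val h
    rw [Units.val_pow_eq_pow_val, hu, Units.val_one] at h8
    have h9 := orderOf_dvd_of_pow_eq_one h8
    rw [hord3] at h9
    have := (Nat.pow_dvd_pow_iff_le_right (by norm_num)).1 h9
    omega
  have hu2 : ((u ^ (2 ^ n) : (ZMod (2 ^ (n + 3)))ˣ) : ZMod (2 ^ (n + 3))) = 1 + 2 ^ (n + 2) :=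
    (hker _ hux).resolve_left hu1
  have hft : χ.FactorsThrough (2 ^ (n + 2)) := by
    rw [DirichletCharacter.factorsThrough_iff_ker_unitsMap hdvd]
    intro x hx
    rw [MonoidHom.mem_ker] at hx ⊢
    rcases hker x hx with rfl | h
    · exact map_one _
    · have h9 : x = u ^ (2 ^ n) := by
        apply Units.ext
        rw [h, hu2]
      have h10 : (χ.toUnitHom u) ^ (2 ^ n) = 1 := by
        apply Units.ext
        rw [Units.val_pow_eq_pow_val, MulChar.coe_toUnitHom, ← chi_pow, h16, MulChar.one_apply_coe,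
          Units.val_one]
      rw [h9, map_pow, h10]
  have h17 := DirichletCharacter.conductor_dvd_of_mem_conductorSet χ hft
  have h18 : χ.conductor = 2 ^ (n + 3) := hχ
  rw [h18] at h17
  have h19 := (Nat.pow_dvd_pow_iff_le_right (by norm_num)).1 h17
  omega

/-- the total over the characters modulo a power of two -/
theorem tot_two {N : ℕ} {K : ℝ} {G : (q : ℕ) → DirichletCharacter ℂ q → ℕ} (hG : GH N K G)
    (h2N : ¬ 2 ∣ N) : ∃ C : ℝ, 0 < C ∧ ∀ k : ℕ, (tot G (2 ^ k) : ℝ) ≤ C := by
  classical
  have hK := hG.pos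
  obtain ⟨q1, hq1⟩ := hG.nv (1 / 20) (by norm_num)
  set M : ℕ := ⌈q1⌉₊ + 1024 with hM
  have hMq : q1 ≤ M := by
    have := Nat.le_ceil q1
    rw [hM]; push_cast; linarith
  have hM1 : (1 : ℝ) ≤ M := by rw [hM]; push_cast; linarith [Nat.cast_nonneg (α := ℝ) ⌈q1⌉₊]
  have hlM : 0 ≤ Real.log M := Real.log_nonneg hM1
  refine ⟨(M * M) * (K * (1 + Real.log M)), by positivity, ?_⟩
  intro k
  have hq : 0 < 2 ^ k := by positivity
  have hNZ : NeZero (2 ^ k) := ⟨hq.ne'⟩
  have hcopr : Nat.Coprime (2 ^ k) N :=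
    Nat.Coprime.pow_left k ((Nat.Prime.coprime_iff_not_dvd Nat.prime_two).2 h2N)
  set B := (Finset.univ : Finset (DirichletCharacter ℂ (2 ^ k))).filter
    (fun χ => G χ.conductor χ.primitiveCharacter ≠ 0) with hB
  have hsplit : tot G (2 ^ k) = ∑ χ ∈ B, G χ.conductor χ.primitiveCharacter := by
    unfold tot
    rw [finsum_eq_sum_of_fintype, hB, Finset.sum_filter_ne_zero]
  have hBprop : ∀ χ ∈ B, χ.conductor ≤ M := by
    intro χ hχ
    have hne := (Finset.mem_filter.1 hχ).2
    obtain ⟨j, hj, hcj⟩ := (Nat.dvd_prime_pow Nat.prime_two).1 χ.conductor_dvd_level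
    by_contra hlt
    push Not at hlt
    have hj10 : 10 < j := by
      by_contra h
      have h1 : 2 ^ j ≤ 2 ^ 10 := Nat.pow_le_pow_right (by norm_num) (by omega)
      rw [hcj] at hlt
      norm_num at h1
      omega
    apply hne
    have hprim := χ.primitiveCharacter_isPrimitive
    have hM1' : 1 < M := by rw [hM]; omega
    have hc1 : 1 < χ.conductor := lt_trans hM1' hlt
    refine hq1 χ.conductor (hMq.trans (by exact_mod_cast hlt.le)) hc1
      (Nat.Coprime.coprime_dvd_left χ.conductor_dvd_level hcopr) _ hprim ?_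
    · -- the order
      obtain ⟨i, rfl⟩ : ∃ i, j = i + 3 := ⟨j - 3, by omega⟩
      have hdvd : 2 ^ (i + 1) ∣ orderOf χ.primitiveCharacter := by
        revert hprim
        generalize χ.primitiveCharacter = θ
        revert θ
        rw [hcj]
        intro θ hθ
        have : NeZero (2 ^ (i + 3)) := ⟨by positivity⟩
        exact two_pow_order θ hθ
      have hNZc : NeZero χ.conductor := ⟨χ.conductor_ne_zero⟩
      have hpos : 0 < orderOf χ.primitiveCharacter := orderOf_pos _
      have hle : ((2 ^ (i + 1) : ℕ) : ℝ) ≤ orderOf χ.primitiveCharacter := by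
        exact_mod_cast Nat.le_of_dvd hpos hdvd
      refine le_trans ?_ hle
      rw [hcj]
      push_cast
      rw [← Real.rpow_natCast, ← Real.rpow_natCast, ← Real.rpow_mul (by norm_num)]
      refine Real.rpow_le_rpow_of_exponent_le (by norm_num) ?_
      have h8 : (8 : ℝ) ≤ i := by
        have : 8 ≤ i := by omega
        have h9 := (Nat.cast_le (α := ℝ)).2 this
        simpa using h9
      push_cast
      have h9 : ((i : ℝ) + 3) * (3 / 4 + 1 / 20) = 4 / 5 * i + 12 / 5 := by ring
      rw [h9]
      linarith only [h8]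
  have hBcard : B.card ≤ M * M := by
    have hsub : B ⊆ (Finset.range (M + 1)).biUnion (fun m => B.filter (fun χ => χ.conductor = m)) := by
      intro χ hχ
      rw [Finset.mem_biUnion]
      exact ⟨χ.conductor, Finset.mem_range.2 (by have := hBprop χ hχ; omega),
        Finset.mem_filter.2 ⟨hχ, rfl⟩⟩
    have hone : ∀ m ∈ Finset.range (M + 1), (B.filter (fun χ => χ.conductor = m)).card ≤
        if m = 0 then 0 else M := by
      intro m hm
      split_ifs with h0
      · rw [Nat.le_zero, Finset.card_eq_zero, Finset.filter_eq_empty_iff]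
        intro χ _
        rw [h0]
        exact χ.conductor_ne_zero
      · by_cases hd : m ∣ 2 ^ k
        · have hNZm : NeZero m := ⟨h0⟩
          have hsub2 : B.filter (fun χ => χ.conductor = m) ⊆
              (Finset.univ : Finset (DirichletCharacter ℂ m)).image
                (DirichletCharacter.changeLevel hd) := by
            intro χ hχ
            have hc := (Finset.mem_filter.1 hχ).2
            obtain ⟨_, χ0, hχ0⟩ :=
              (DirichletCharacter.mem_conductorSet_iff_conductor_dvd χ hd).2 (by rw [hc])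
            exact Finset.mem_image.2 ⟨χ0, Finset.mem_univ _, hχ0.symm⟩
          refine (Finset.card_le_card hsub2).trans (Finset.card_image_le.trans ?_)
          refine (card_char_le m _).trans ?_
          have := Finset.mem_range.1 hm
          omega
        · rw [Finset.card_eq_zero.2]
          · exact Nat.zero_le _
          · rw [Finset.filter_eq_empty_iff]
            intro χ _ h
            exact hd (h ▸ χ.conductor_dvd_level)
    refine (Finset.card_le_card hsub).trans (Finset.card_biUnion_le.trans ?_)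
    refine (Finset.sum_le_sum hone).trans ?_
    rw [Finset.sum_ite, Finset.sum_const_zero, zero_add, Finset.sum_const, smul_eq_mul]
    refine Nat.mul_le_mul_right _ ?_
    have : (Finset.range (M + 1)).filter (fun m => ¬ m = 0) ⊆ Finset.Icc 1 M := by
      intro m hm
      rw [Finset.mem_filter, Finset.mem_range] at hm
      rw [Finset.mem_Icc]
      omega
    refine (Finset.card_le_card this).trans ?_
    simp
  rw [hsplit]
  push_cast
  calc ∑ χ ∈ B, ((G χ.conductor χ.primitiveCharacter : ℕ) : ℝ) ≤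
        ∑ χ ∈ B, K * (1 + Real.log M) := by
        refine Finset.sum_le_sum fun χ hχ => ?_
        have hc1 : 1 ≤ χ.conductor := Nat.one_le_iff_ne_zero.2 χ.conductor_ne_zero
        refine (hG.bd _ _ hc1 (Nat.Coprime.coprime_dvd_left χ.conductor_dvd_level hcopr)
          χ.primitiveCharacter_isPrimitive).trans ?_
        have : Real.log χ.conductor ≤ Real.log M :=
          Real.log_le_log (by exact_mod_cast hc1) (by exact_mod_cast hBprop χ hχ)
        gcongr
    _ = B.card * (K * (1 + Real.log M)) := by rw [Finset.sum_const, nsmul_eq_mul]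
    _ ≤ _ := by
        refine mul_le_mul_of_nonneg_right ?_ (by positivity)
        exact_mod_cast hBcard

end Pool.Agent.Y683.NF
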