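import Pool.Agent.Y683.NF.Ord
import Pool.Agent.Y683.NF.Two

/-!
The twists of a newform of weight `2m`: nonvanishing for large order, total order of vanishing over
the characters modulo a prime power.
-/

set_option autoImplicit false

namespace Pool.Agent.Y683.NF

open Complex Filter Topology Set ZMod
open UpperHalfPlane hiding I
open scoped MatrixGroups
open CongruenceSubgroup
open Pool.Agent.W192.CY
open Pool.Agent.TH940 (tot GH)

lemma order_ne_top {F : ℂ → ℂ} (hF : Differentiable ℂ F) {z0 : ℂ} (h0 : F z0 ≠ 0) (z : ℂ) :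
    analyticOrderAt F z ≠ ⊤ := by
  intro h
  have h1 : ∀ᶠ w in 𝓝 z, F w = 0 := analyticOrderAt_eq_top.1 h
  have h2 := AnalyticOnNhd.eqOn_zero_of_preconnected_of_eventuallyEq_zero (f := F) (U := Set.univ)
    (fun w _ => hF.analyticAt w) isPreconnected_univ (Set.mem_univ z) h1
  exact h0 (h2 (Set.mem_univ z0))

/-- the order of a product at a point -/
theorem order_prod {ι : Type} (s : Finset ι) (F : ι → ℂ → ℂ) (z : ℂ)
    (h1 : ∀ i ∈ s, AnalyticAt ℂ (F i) z) (h2 : ∀ i ∈ s, analyticOrderAt (F i) z ≠ ⊤) :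
    analyticOrderAt (fun w => ∏ i ∈ s, F i w) z =
      ((∑ i ∈ s, analyticOrderNatAt (F i) z : ℕ) : ℕ∞) := by
  classical
  induction s using Finset.induction_on with
  | empty =>
    simp only [Finset.prod_empty, Finset.sum_empty]
    rw [(analyticAt_const).analyticOrderAt_eq_zero.2 one_ne_zero]
    rfl
  | insert i s hi ih =>
    have h3 : (fun w => ∏ j ∈ insert i s, F j w) = (F i) * (fun w => ∏ j ∈ s, F j w) := by
      funext w
      rw [Finset.prod_insert hi]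
      rfl
    have h4 : AnalyticAt ℂ (fun w => ∏ j ∈ s, F j w) z :=
      Finset.analyticAt_fun_prod s fun j hj => h1 j (Finset.mem_insert_of_mem hj)
    rw [h3, analyticOrderAt_mul (h1 i (Finset.mem_insert_self i s)) h4,
      ih (fun j hj => h1 j (Finset.mem_insert_of_mem hj))
        (fun j hj => h2 j (Finset.mem_insert_of_mem hj)), Finset.sum_insert hi,
      ← Nat.cast_analyticOrderNatAt (h2 i (Finset.mem_insert_self i s))]
    push_cast
    rfl

theorem main {m : ℕ} (hm : 1 ≤ m) {N : ℕ} [NeZero N] {η : DirichletCharacter ℂ N}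
    {f : CuspForm (Gamma1 N : Subgroup (GL (Fin 2) ℝ)) (2 * m : ℤ)} {w : ℂ}
    (hf : NNewf m N η f w) :
    ∃ L : (q : ℕ) → DirichletCharacter ℂ q → ℂ → ℂ,
      (∀ (q : ℕ) (χ : DirichletCharacter ℂ q), 1 ≤ q → Nat.Coprime q N → χ.IsPrimitive →
        Differentiable ℂ (L q χ) ∧ ∀ s : ℂ, (m : ℝ) + 1 / 2 < s.re →
          HasProd (fun p : Nat.Primes => (1 - χ ((p : ℕ) : ZMod q) * cf f p *
            ((p : ℕ) : ℂ) ^ (-s) + χ ((p : ℕ) : ZMod q) ^ 2 * η ((p : ℕ) : ZMod N) *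
              ((p : ℕ) : ℂ) ^ (2 * (m : ℂ) - 1 - 2 * s))⁻¹) (L q χ s)) ∧
      (∀ ε : ℝ, 0 < ε → ∃ q₀ : ℕ, ∀ q : ℕ, q₀ ≤ q → Nat.Coprime q N →
        ∀ χ : DirichletCharacter ℂ q, χ.IsPrimitive → (q : ℝ) ^ (3 / 4 + ε) ≤ orderOf χ →
          L q χ m ≠ 0) ∧
      (∀ q : ℕ, 1 ≤ q → Nat.Coprime q N → analyticOrderAt (fun s : ℂ =>
        ∏ᶠ χ : DirichletCharacter ℂ q, L χ.conductor χ.primitiveCharacter s) m ≠ ⊤) ∧
      ∀ ε : ℝ, 0 < ε → ∃ C : ℝ, ∀ p : ℕ, p.Prime → ¬ p ∣ N → ∀ k : ℕ,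
        (analyticOrderNatAt (fun s : ℂ => ∏ᶠ χ : DirichletCharacter ℂ (p ^ k),
          L χ.conductor χ.primitiveCharacter s) m : ℝ) ≤ C * ((p : ℝ) ^ k) ^ (3 / 4 + ε) ∧
        (analyticOrderNatAt (fun s : ℂ => ∏ᶠ χ : DirichletCharacter ℂ (p ^ k),
          L χ.conductor χ.primitiveCharacter s) m : ℝ) ≤ C * (p : ℝ) ^ (3 + ε) := by
  classical
  obtain ⟨K, L, hK, hL, hnv⟩ := pack hm hf
  have han : ∀ (q : ℕ) (χ : DirichletCharacter ℂ q), 1 ≤ q → Nat.Coprime q N → χ.IsPrimitive →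
      ∀ s : ℂ, AnalyticAt ℂ (L q χ) s := fun q χ h1 h2 h3 s => (hL q χ h1 h2 h3).1.analyticAt s
  have htop : ∀ (q : ℕ) (χ : DirichletCharacter ℂ q), 1 ≤ q → Nat.Coprime q N → χ.IsPrimitive →
      ∀ s : ℂ, analyticOrderAt (L q χ) s ≠ ⊤ := by
    intro q χ h1 h2 h3 s
    exact order_ne_top (hL q χ h1 h2 h3).1 (hL q χ h1 h2 h3).2.2.1 s
  set G : (q : ℕ) → DirichletCharacter ℂ q → ℕ := fun q χ => analyticOrderNatAt (L q χ) m with hG
  have hGH : GH N K G := by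
    refine ⟨hK, fun q χ h1 h2 h3 => (hL q χ h1 h2 h3).2.2.2, fun δ hδ => ?_⟩
    obtain ⟨q0, hq0⟩ := hnv δ hδ
    refine ⟨q0, fun q h1 h2 h3 χ h4 h5 => ?_⟩
    have h6 := hq0 q h1 (by omega) h3 χ h4 h5
    rw [hG]
    simp only
    unfold analyticOrderNatAt
    rw [(han q χ (by omega) h3 h4 _).analyticOrderAt_eq_zero.2 h6]
    rfl
  have hord : ∀ q : ℕ, 1 ≤ q → Nat.Coprime q N → analyticOrderAt (fun s : ℂ =>
      ∏ᶠ χ : DirichletCharacter ℂ q, L χ.conductor χ.primitiveCharacter s) m =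
      ((tot G q : ℕ) : ℕ∞) := by
    intro q hq hqM
    have : NeZero q := ⟨by omega⟩
    have hc : ∀ χ : DirichletCharacter ℂ q, 1 ≤ χ.conductor ∧ Nat.Coprime χ.conductor N ∧
        χ.primitiveCharacter.IsPrimitive := fun χ =>
      ⟨Nat.one_le_iff_ne_zero.2 χ.conductor_ne_zero,
        Nat.Coprime.coprime_dvd_left χ.conductor_dvd_level hqM, χ.primitiveCharacter_isPrimitive⟩
    have e1 : (fun s : ℂ => ∏ᶠ χ : DirichletCharacter ℂ q,
        L χ.conductor χ.primitiveCharacter s) =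
        fun s : ℂ => ∏ χ : DirichletCharacter ℂ q,
          L χ.conductor χ.primitiveCharacter s := by
      funext s
      exact finprod_eq_prod_of_fintype _
    rw [e1, order_prod Finset.univ
      (fun χ : DirichletCharacter ℂ q => L χ.conductor χ.primitiveCharacter) (m : ℂ)
      (fun χ _ => han _ _ (hc χ).1 (hc χ).2.1 (hc χ).2.2 _)
      (fun χ _ => htop _ _ (hc χ).1 (hc χ).2.1 (hc χ).2.2 _)]
    unfold tot
    rw [finsum_eq_sum_of_fintype]
  refine ⟨L, fun q χ h1 h2 h3 => ⟨(hL q χ h1 h2 h3).1, (hL q χ h1 h2 h3).2.1⟩, ?_, ?_, ?_⟩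
  · intro ε hε
    obtain ⟨q0, hq0⟩ := hnv ε hε
    refine ⟨max ⌈q0⌉₊ 1, fun q hq hqN χ hχ hord => ?_⟩
    exact hq0 q ((Nat.le_ceil q0).trans (by exact_mod_cast le_trans (le_max_left _ _) hq))
      (le_trans (le_max_right _ _) hq) hqN χ hχ hord
  · intro q hq hqM
    rw [hord q hq hqM]
    exact ENat.natCast_ne_top _
  · intro ε hε
    obtain ⟨C1, hC1, h1⟩ := Pool.Agent.TH940.tot_bound hGH hε
    obtain ⟨C2, hC2, h2⟩ := Pool.Agent.TH940.tot_bound2 hGH hε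
    obtain ⟨C3, hC3, h3⟩ : ∃ C3 : ℝ, 0 < C3 ∧ (¬ 2 ∣ N → ∀ k : ℕ, (tot G (2 ^ k) : ℝ) ≤ C3) := by
      by_cases h2N : 2 ∣ N
      · exact ⟨1, one_pos, fun h => absurd h2N h⟩
      · obtain ⟨C3, hC3, h3⟩ := tot_two hGH h2N
        exact ⟨C3, hC3, fun _ => h3⟩
    refine ⟨max C1 C2 + C3, fun p hp hpN k => ?_⟩
    have hq : 1 ≤ p ^ k := Nat.one_le_iff_ne_zero.2 (pow_pos hp.pos k).ne'
    have hco : Nat.Coprime (p ^ k) N :=
      Nat.Coprime.pow_left k ((Nat.Prime.coprime_iff_not_dvd hp).2 hpN)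
    have e : analyticOrderNatAt (fun s : ℂ => ∏ᶠ χ : DirichletCharacter ℂ (p ^ k),
        L χ.conductor χ.primitiveCharacter s) m = tot G (p ^ k) := by
      unfold analyticOrderNatAt
      rw [hord _ hq hco]
      rfl
    have hp1 : (1 : ℝ) ≤ p := by exact_mod_cast hp.one_lt.le
    have hp0 : (0 : ℝ) < p := by linarith
    have hm1 : 0 < max C1 C2 := lt_max_of_lt_left hC1
    have i1 : 1 ≤ ((p : ℝ) ^ k) ^ (3 / 4 + ε) :=
      Real.one_le_rpow (one_le_pow₀ hp1) (by positivity)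
    have i2 : 1 ≤ (p : ℝ) ^ (3 + ε) := Real.one_le_rpow hp1 (by positivity)
    rw [e]
    by_cases hp2 : p = 2
    · subst hp2
      have h4 := h3 hpN k
      constructor
      · calc (tot G (2 ^ k) : ℝ) ≤ C3 * 1 := by rw [mul_one]; exact h4
          _ ≤ (max C1 C2 + C3) * (((2 : ℕ) : ℝ) ^ k) ^ (3 / 4 + ε) :=
            mul_le_mul (by linarith) i1 zero_le_one (by positivity)
      · calc (tot G (2 ^ k) : ℝ) ≤ C3 * 1 := by rw [mul_one]; exact h4
          _ ≤ (max C1 C2 + C3) * ((2 : ℕ) : ℝ) ^ (3 + ε) :=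
            mul_le_mul (by linarith) i2 zero_le_one (by positivity)
    · refine ⟨(h1 p hp hp2 hpN k).trans ?_, (h2 p hp hp2 hpN k).trans ?_⟩
      · refine mul_le_mul_of_nonneg_right ?_ (by positivity)
        have := le_max_left C1 C2
        linarith
      · refine mul_le_mul_of_nonneg_right ?_ (by positivity)
        have := le_max_right C1 C2
        linarith

end Pool.Agent.Y683.NF
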