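import Pool.Agent.Y683.NF.Afe
import Pool.Agent.Y683.MS.Per
import Pool.Agent.Y683.MS.Gal

/-!
The central value of the twist as a combination of modular symbols, weight `2m`.
-/

set_option autoImplicit false

namespace Pool.Agent.Y683.NF

open Complex Filter Topology Set Polynomial MeasureTheory ZMod
open UpperHalfPlane hiding I
open scoped MatrixGroups
open CongruenceSubgroup
open Pool.Agent.W192.CY
open Pool.Agent.W108.TW (Th continuousOn_Th Th_isBigO)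
open Pool.Agent.TH936.HK (int_Th)
open Pool.Agent.Y683.MS

/-- integrability -/
theorem int_on (κ : ℕ) {b : ℕ → ℂ} {m C : ℝ} (hb0 : b 0 = 0)
    (hb : ∀ n : ℕ, 1 ≤ n → ‖b n‖ ≤ C * (n : ℝ) ^ m) {c : ℝ} (hc : 0 < c) {y : ℝ} (hy : 0 < y) :
    IntegrableOn (fun t : ℝ => (t : ℂ) ^ (κ - 1) * Th b c t) (Ioi y) := by
  have h1 : ContinuousOn (fun t : ℝ => (t : ℂ) ^ (κ - 1) * Th b c t) (Ici y) := by
    refine ContinuousOn.mul (by fun_prop) ((continuousOn_Th hb0 hb hc).mono fun t ht => ?_)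
    exact lt_of_lt_of_le hy ht
  have h2 := h1.locallyIntegrableOn (μ := volume) measurableSet_Ici
  have h3 : (fun t : ℝ => (t : ℂ) ^ (κ - 1) * Th b c t) =O[atTop]
      (fun t : ℝ => t ^ (-2 : ℝ)) := by
    have h4 := Th_isBigO hb0 hb hc (-2 - ((κ - 1 : ℕ) : ℝ))
    simp only [sub_zero] at h4
    have h5 : (fun t : ℝ => (t : ℂ) ^ (κ - 1)) =O[atTop]
        (fun t : ℝ => t ^ (((κ - 1 : ℕ) : ℝ))) := by
      refine Asymptotics.IsBigO.of_bound 1 ?_
      filter_upwards [eventually_gt_atTop 0] with t ht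
      rw [norm_pow, Complex.norm_real, Real.rpow_natCast, norm_pow, one_mul]
    refine (h5.mul h4).congr' (Eventually.of_forall fun t => rfl) ?_
    filter_upwards [eventually_gt_atTop 0] with t ht
    rw [← Real.rpow_add ht]
    congr 1
    ring
  have h6 : IntegrableAtFilter (fun t : ℝ => t ^ (-2 : ℝ)) atTop volume :=
    ⟨Ioi 1, Ioi_mem_atTop 1, integrableOn_Ioi_rpow_of_lt (by norm_num) one_pos⟩
  exact (h2.integrableOn_of_isBigO_atTop h3 h6).mono_set Ioi_subset_Ici_self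

/-- the tail of the integral tends to zero -/
theorem int_tail {g : ℝ → ℂ} {y : ℝ} (hg : IntegrableOn g (Ioi y)) :
    Tendsto (fun T : ℝ => ∫ t in Ioi T, g t) atTop (𝓝 0) := by
  have h1 := intervalIntegral_tendsto_integral_Ioi y hg tendsto_id
  have h2 : Tendsto (fun T : ℝ => (∫ t in Ioi y, g t) - ∫ t in y..T, g t) atTop
      (𝓝 ((∫ t in Ioi y, g t) - ∫ t in Ioi y, g t)) := h1.const_sub _
  rw [sub_self] at h2
  refine h2.congr' ?_
  filter_upwards [eventually_ge_atTop y] with T hT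
  have h3 := intervalIntegral.integral_interval_add_Ioi hg (hg.mono_set (Ioi_subset_Ioi hT))
  rw [← h3]
  ring

/-- the series of the approximate functional equation as an integral -/
theorem ser_int (κ : ℕ) (hκ : 1 ≤ κ) {b : ℕ → ℂ} {m C : ℝ} (hb0 : b 0 = 0)
    (hb : ∀ n : ℕ, 1 ≤ n → ‖b n‖ ≤ C * (n : ℝ) ^ m) {t0 : ℝ} (ht : 0 < t0) :
    ∑' n : ℕ, b n / (n : ℂ) ^ κ * (Vk κ (2 * Real.pi * n * t0) : ℂ) =
      (2 * Real.pi : ℂ) ^ κ / (((κ - 1).factorial : ℕ) : ℂ) *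
        ∫ t in Ioi t0, (t : ℂ) ^ (κ - 1) * Th b (2 * Real.pi) t := by
  have hpi := Real.pi_pos
  rw [int_Th κ hκ hb0 hb (by positivity) ht, ← tsum_mul_left]
  refine tsum_congr fun n => ?_
  have hFa : (((κ - 1).factorial : ℕ) : ℂ) ≠ 0 := by
    exact_mod_cast (Nat.factorial_pos (κ - 1)).ne'
  rcases Nat.eq_zero_or_pos n with rfl | hn
  · rw [hb0]; simp
  · have hn' : (n : ℂ) ≠ 0 := by exact_mod_cast hn.ne'
    have hpiC : (Real.pi : ℂ) ≠ 0 := by exact_mod_cast hpi.ne'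
    push_cast
    rw [mul_pow, mul_pow]
    field_simp
    try ring

/-- the polynomial `(q X - a) ^ (m - 1)` -/
noncomputable def Pa (m q : ℕ) (a : ℤ) : ℚ[X] := (C (q : ℚ) * X + C (-(a : ℚ))) ^ (m - 1)

lemma Pa_deg (m q : ℕ) (a : ℤ) : (Pa m q a).natDegree ≤ 2 * m - 2 :=
  (lin_deg _ _ _).trans (by omega)

lemma Pa_eval (m q : ℕ) [NeZero q] (a : ℤ) (y : ℝ) :
    aeval ((a : ℂ) / q + y * I) (Pa m q a) = ((q : ℂ) * y * I) ^ (m - 1) := by
  have hq : (q : ℂ) ≠ 0 := Nat.cast_ne_zero.2 (NeZero.ne q)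
  unfold Pa
  simp only [map_pow, map_add, map_mul, aeval_C, aeval_X]
  congr 1
  have h1 : algebraMap ℚ ℂ (q : ℚ) = (q : ℂ) := by simp
  have h2 : algebraMap ℚ ℂ (-(a : ℚ)) = -(a : ℂ) := by simp
  rw [h1, h2]
  field_simp
  ring

/-- **the central value** -/
theorem center (h2 : N_EUL) {m : ℕ} (hm : 1 ≤ m) {N : ℕ} [NeZero N] {η : DirichletCharacter ℂ N}
    {f : CuspForm (Gamma1 N : Subgroup (GL (Fin 2) ℝ)) (2 * m : ℤ)} {w : ℂ}
    (hf : NNewf m N η f w) (q : ℕ) [NeZero q] : ∃ κ : (ZMod q)ˣ → ℂ,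
      (∀ u, κ u ∈ VP f (2 * m - 2)) ∧ ∀ (χ : DirichletCharacter ℂ q), χ.IsPrimitive →
      ∃ K : ℂ, K ≠ 0 ∧ ∀ F0 W : ℂ,
        (∀ X Y : ℝ, 0 < X → 0 < Y → X * Y = N * (q : ℝ) ^ 2 / (4 * Real.pi ^ 2) →
          F0 = ∑' n : ℕ, χ⁻¹ (n : ZMod q) * (cf f n / (n : ℂ) ^ (m - 1)) / n *
              (Vk m (n / X) : ℂ) +
            W * ∑' n : ℕ, (starRingEnd ℂ) (χ⁻¹ (n : ZMod q)) *
              (starRingEnd ℂ) (cf f n / (n : ℂ) ^ (m - 1)) / n * (Vk m (n / Y) : ℂ)) →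
        ∑ u : (ZMod q)ˣ, χ (u : ZMod q) * κ u = K * F0 := by
  have hq0 : (0 : ℝ) < q := Nat.cast_pos.2 (Nat.pos_of_ne_zero (NeZero.ne q))
  have hqC : (q : ℂ) ≠ 0 := Nat.cast_ne_zero.2 (NeZero.ne q)
  have hN0 : (0 : ℝ) < N := Nat.cast_pos.2 (Nat.pos_of_ne_zero (NeZero.ne N))
  have hpi := Real.pi_pos
  have hk : (2 * m : ℤ) = ((2 * m - 2 : ℕ) : ℤ) + 2 := by omega
  have hDec := Hf_dec f 1
  set h : ℂ → ℂ := Hf f 1 with hh
  -- the cusps
  have hex : ∀ u : (ZMod q)ˣ, ∃ κ ∈ VP f (2 * m - 2),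
      Tendsto (fun y : ℝ => FP (2 * m - 2) h (Pa m q ((u : ZMod q).val : ℤ))
        ((((u : ZMod q).val : ℤ) : ℂ) / q + y * I)) (𝓝[>] 0) (𝓝 κ) := by
    intro u
    have h1 : Nat.Coprime (u : ZMod q).val q := ZMod.val_coe_unit_coprime u
    have h3 : IsCoprime (((u : ZMod q).val : ℕ) : ℤ) (q : ℤ) := Nat.isCoprime_iff_coprime.2 h1
    obtain ⟨κ, hκ, h4⟩ := cusp_val f hk (a := ((u : ZMod q).val : ℤ)) (q := (q : ℤ))
      (by exact_mod_cast hq0) h3 (Pa m q ((u : ZMod q).val : ℤ)) (Pa_deg _ _ _)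
    refine ⟨κ, hκ, ?_⟩
    have e : (((q : ℕ) : ℤ) : ℂ) = (q : ℂ) := by push_cast; rfl
    rw [e] at h4
    exact h4
  choose κ hκ hlim using hex
  refine ⟨κ, hκ, fun χ hχ => ?_⟩
  set τ : ℂ := gaussSum χ (stdAddChar (N := q)) with hτ
  have hτ0 : τ ≠ 0 := Pool.Agent.W440.TW.gauss_ne_zero χ hχ
  have hFa : (((m - 1).factorial : ℕ) : ℂ) ≠ 0 := by
    exact_mod_cast (Nat.factorial_pos (m - 1)).ne'
  have hpiC : (2 * Real.pi : ℂ) ≠ 0 := by
    have : (Real.pi : ℂ) ≠ 0 := by exact_mod_cast hpi.ne'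
    exact mul_ne_zero two_ne_zero this
  set A : ℂ := I * (q * I) ^ (m - 1) * τ with hA
  have hA0 : A ≠ 0 := by
    rw [hA]
    exact mul_ne_zero (mul_ne_zero I_ne_zero (pow_ne_zero _ (mul_ne_zero hqC I_ne_zero))) hτ0
  set K : ℂ := -(A * ((((m - 1).factorial : ℕ) : ℂ) / (2 * Real.pi : ℂ) ^ m)) with hK
  refine ⟨K, ?_, fun F0 W hF => ?_⟩
  · rw [hK]
    exact neg_ne_zero.2 (mul_ne_zero hA0 (div_ne_zero hFa (pow_ne_zero _ hpiC)))
  -- the series
  set b : ℕ → ℂ := fun n => χ⁻¹ (n : ZMod q) * cf f n with hb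
  have hb0 : b 0 = 0 := by simp only [hb, cf_zero, mul_zero]
  obtain ⟨C, hC⟩ := coef_bd h2 hm hf q χ⁻¹
  set S : ℝ → ℂ := fun y => ∑ u : (ZMod q)ˣ, χ (u : ZMod q) *
    FP (2 * m - 2) h (Pa m q ((u : ZMod q).val : ℤ))
      ((((u : ZMod q).val : ℤ) : ℂ) / q + y * I) with hS
  have hS0 : Tendsto S (𝓝[>] 0) (𝓝 (∑ u : (ZMod q)ˣ, χ (u : ZMod q) * κ u)) :=
    tendsto_finsetSum _ fun u _ => (hlim u).const_mul _
  have hSinf : Tendsto S atTop (𝓝 0) := by
    have h1 : Tendsto S atTop (𝓝 (∑ u : (ZMod q)ˣ, χ (u : ZMod q) * 0)) := by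
      refine tendsto_finsetSum _ fun u _ => Tendsto.const_mul _ ?_
      have h3 := FP_lim (d := 2 * m - 2) hDec (Pa m q ((u : ZMod q).val : ℤ))
        ((((u : ZMod q).val : ℤ) : ℝ) / q)
      refine h3.congr fun y => ?_
      congr 2
      push_cast
      rfl
    simpa using h1
  have hSd : ∀ y : ℝ, 0 < y → HasDerivAt S (A * ((y : ℂ) ^ (m - 1) * Th b (2 * Real.pi) y)) y := by
    intro y hy
    have h1 : HasDerivAt S (∑ u : (ZMod q)ˣ, χ (u : ZMod q) *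
        (h ((((u : ZMod q).val : ℤ) : ℂ) / q + y * I) * ((q : ℂ) * y * I) ^ (m - 1) * I)) y := by
      refine HasDerivAt.fun_sum fun u _ => HasDerivAt.const_mul _ ?_
      have him : 0 < ((((u : ZMod q).val : ℤ) : ℂ) / q + y * I).im := by
        have e : ((((u : ZMod q).val : ℤ) : ℂ) / q + y * I) =
            ((((((u : ZMod q).val : ℤ) : ℝ) / q : ℝ) : ℂ) + y * I) := by push_cast; rfl
        rw [e, line_im]
        exact hy
      have h3 := FP_deriv hDec (Pa_deg m q ((u : ZMod q).val : ℤ)) him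
      rw [Pa_eval] at h3
      have h4 : HasDerivAt (fun w : ℂ => (((u : ZMod q).val : ℤ) : ℂ) / q + w * I) I (y : ℂ) := by
        simpa using ((hasDerivAt_id (y : ℂ)).mul_const I).const_add
          ((((u : ZMod q).val : ℤ) : ℂ) / q)
      exact (HasDerivAt.comp (y : ℂ) h3 h4).comp_ofReal
    refine h1.congr_deriv ?_
    have hyq : 0 < (y * q) / q := by positivity
    have h5 := (Pool.Agent.W597.CYN.hasSum_twist f χ hχ (y * q) hyq).tsum_eq
    have hyq2 : (y * q) / q = y := by field_simp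
    have h6 : ∀ u : (ZMod q)ˣ, f (Pool.Agent.W440.TW.pt ((((u : ZMod q).val : ℤ) : ℝ) / q)
        (y * q / q) hyq) = h ((((u : ZMod q).val : ℤ) : ℂ) / q + y * I) := by
      intro u
      have h7 := Hf_apply f 1 (Pool.Agent.W440.TW.pt ((((u : ZMod q).val : ℤ) : ℝ) / q)
        (y * q / q) hyq)
      rw [SlashAction.slash_one] at h7
      rw [← h7, Pool.Agent.W440.TW.pt_coe, hyq2]
      congr 2
      push_cast
      rfl
    simp only [h6] at h5
    have h8 : ∑' n : ℕ, gaussSum χ (stdAddChar (N := q)) * (χ⁻¹ (n : ZMod q) *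
        cf f n * (Real.exp (-(2 * Real.pi * n * (y * q / q))) : ℂ)) =
        τ * Th b (2 * Real.pi) y := by
      rw [tsum_mul_left, hyq2]
      unfold Th
      congr 1
      refine tsum_congr fun n => ?_
      simp only [hb]
      congr 3
      ring
    rw [h8] at h5
    have h9 : ∑ u : (ZMod q)ˣ, χ (u : ZMod q) *
        (h ((((u : ZMod q).val : ℤ) : ℂ) / q + y * I) * ((q : ℂ) * y * I) ^ (m - 1) * I) =
        (((q : ℂ) * y * I) ^ (m - 1) * I) * ∑ u : (ZMod q)ˣ, χ (u : ZMod q) *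
          h ((((u : ZMod q).val : ℤ) : ℂ) / q + y * I) := by
      rw [Finset.mul_sum]
      refine Finset.sum_congr rfl fun u _ => ?_
      ring
    rw [h9, ← h5, hA]
    rw [show ((q : ℂ) * y * I) = (q * I) * y by ring, mul_pow]
    ring
  -- the integral
  have hSint : ∀ y : ℝ, 0 < y → S y = -(A * ∫ t in Ioi y, (t : ℂ) ^ (m - 1) *
      Th b (2 * Real.pi) t) := by
    intro y hy
    have h1 := int_on m hb0 hC (c := 2 * Real.pi) (by positivity) hy
    have h3 := integral_Ioi_of_hasDerivAt_of_tendsto (f := S)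
      (f' := fun t => A * ((t : ℂ) ^ (m - 1) * Th b (2 * Real.pi) t)) (a := y) (m := 0)
      (hSd y hy).continuousAt.continuousWithinAt (fun t ht => hSd t (lt_trans hy ht))
      (h1.const_mul A) hSinf
    rw [integral_const_mul] at h3
    rw [h3]
    ring
  -- the dual sum
  have hbc0 : (starRingEnd ℂ) (b 0) = 0 := by rw [hb0, map_zero]
  have hCc : ∀ n : ℕ, 1 ≤ n → ‖(starRingEnd ℂ) (b n)‖ ≤ C * (n : ℝ) ^ ((m : ℝ) + 1) := by
    intro n hn
    rw [RCLike.norm_conj]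
    exact hC n hn
  have hpw : ∀ n : ℕ, (n : ℂ) ^ m = (n : ℂ) ^ (m - 1) * n := by
    intro n
    rw [← pow_succ]
    congr 1
    omega
  set Dl : ℝ → ℂ := fun y => (2 * Real.pi : ℂ) ^ m / (((m - 1).factorial : ℕ) : ℂ) *
    ∫ t : ℝ in Ioi (1 / (N * (q : ℝ) ^ 2 * y) : ℝ), (t : ℂ) ^ (m - 1) *
      Th (fun n => (starRingEnd ℂ) (b n)) (2 * Real.pi) t with hDl
  have hDl0 : Tendsto Dl (𝓝[>] 0) (𝓝 0) := by
    have h1 := int_tail (int_on m hbc0 hCc (c := 2 * Real.pi) (by positivity) one_pos)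
    have h3 : Tendsto (fun y : ℝ => 1 / (N * (q : ℝ) ^ 2 * y)) (𝓝[>] 0) atTop := by
      have h4 : Tendsto (fun y : ℝ => (N * (q : ℝ) ^ 2)⁻¹ * y⁻¹) (𝓝[>] 0) atTop :=
        tendsto_inv_nhdsGT_zero.const_mul_atTop (by positivity)
      refine h4.congr fun y => ?_
      rw [one_div, mul_inv (N * (q : ℝ) ^ 2) y]
    have h5 := (h1.comp h3).const_mul ((2 * Real.pi : ℂ) ^ m / (((m - 1).factorial : ℕ) : ℂ))
    rw [mul_zero] at h5
    exact h5
  have hSF : ∀ y : ℝ, 0 < y → S y = K * (F0 - W * Dl y) := by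
    intro y hy
    have hXp : 0 < 1 / (2 * Real.pi * y) := by positivity
    have hYp : 0 < N * (q : ℝ) ^ 2 * y / (2 * Real.pi) := by positivity
    have h1 := hF (1 / (2 * Real.pi * y)) (N * (q : ℝ) ^ 2 * y / (2 * Real.pi)) hXp hYp
      (by field_simp; ring)
    have e1 : ∑' n : ℕ, χ⁻¹ (n : ZMod q) * (cf f n / (n : ℂ) ^ (m - 1)) / n *
        (Vk m (n / (1 / (2 * Real.pi * y))) : ℂ) =
        (2 * Real.pi : ℂ) ^ m / (((m - 1).factorial : ℕ) : ℂ) *
        ∫ t in Ioi y, (t : ℂ) ^ (m - 1) * Th b (2 * Real.pi) t := by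
      rw [← ser_int m hm hb0 hC hy]
      refine tsum_congr fun n => ?_
      have e3 : (n : ℝ) / (1 / (2 * Real.pi * y)) = 2 * Real.pi * n * y := by field_simp
      rw [e3, hpw n]
      simp only [hb]
      rw [mul_div_assoc, mul_div_assoc, div_div]
    have e2 : ∑' n : ℕ, (starRingEnd ℂ) (χ⁻¹ (n : ZMod q)) *
        (starRingEnd ℂ) (cf f n / (n : ℂ) ^ (m - 1)) / n *
          (Vk m (n / (N * (q : ℝ) ^ 2 * y / (2 * Real.pi))) : ℂ) = Dl y := by
      simp only [hDl]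
      rw [← ser_int m hm hbc0 hCc (by positivity)]
      refine tsum_congr fun n => ?_
      have e3 : (n : ℝ) / (N * (q : ℝ) ^ 2 * y / (2 * Real.pi)) =
          2 * Real.pi * n * (1 / (N * (q : ℝ) ^ 2 * y)) := by field_simp
      rw [e3, hpw n]
      simp only [hb]
      rw [map_mul, map_div₀, map_pow, Complex.conj_natCast, mul_div_assoc, mul_div_assoc, div_div]
    rw [e1, e2] at h1
    rw [hSint y hy, h1, hK]
    field_simp
    ring
  have h10 : Tendsto (fun y => K * (F0 - W * Dl y)) (𝓝[>] 0) (𝓝 (K * (F0 - W * 0))) :=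
    ((hDl0.const_mul W).const_sub F0).const_mul K
  rw [mul_zero, sub_zero] at h10
  refine tendsto_nhds_unique hS0 (h10.congr' ?_)
  filter_upwards [self_mem_nhdsWithin] with y hy
  exact (hSF y hy).symm

end Pool.Agent.Y683.NF
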