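import Pool.Agent.Y683.NF.Cen
import Pool.Agent.W804.CY.NCoef
import Pool.Agent.W192.WO.Parts
import Pool.Agent.W216.CY.Div
import Pool.Agent.W230.CY.Orth
import Pool.Agent.W74.CY.WPP
import Pool.Agent.W305.CY.Weil
import Pool.Agent.W143.CY.COUNT
import Pool.Agent.W736.CY.GTAIL
import Pool.Agent.W155.CY.MobM
import Pool.Agent.W976.CY.Kloom
import Pool.Agent.W82.WO.MainpW
import Pool.Agent.W753.WO.Dualp
import Pool.Agent.W471.WO.Finn
import Pool.Agent.TH936.CM.Num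

/-!
Nonvanishing at the centre of the twists of a newform of weight `2m` by all characters of large order.
-/

set_option autoImplicit false

namespace Pool.Agent.Y683.NF

open Complex Filter Topology Set ZMod
open UpperHalfPlane hiding I
open scoped MatrixGroups
open CongruenceSubgroup
open Pool.Agent.W192.CY
open Pool.Agent.Y683.MS
open Pool.Agent.W440.TW (inv_primitive)

theorem fin_w : Pool.Agent.W192.WO.W_FINN := by
  have hdiv := Pool.Agent.W216.CY.t_div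
  have horth := Pool.Agent.W230.CY.t_orth
  have hweil := Pool.Agent.W305.CY.t_weil Pool.Agent.W74.CY.wpp hdiv
  have htail := Pool.Agent.W736.CY.GTAIL.t_gtail (Pool.Agent.W143.CY.g_count hdiv)
  have hmob := Pool.Agent.W155.CY.m_mob
  have hkloo := Pool.Agent.W976.CYKloom.m_kloo horth hweil
  have hmain := Pool.Agent.W82.WO.w_mainp hdiv horth hmob htail
  have hdual := Pool.Agent.W753.WO.w_dualp hdiv hmob hkloo
  exact Pool.Agent.W471.WO.w_finn hdiv hmob hmain hdual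

theorem eul : N_EUL := n_eul Pool.Agent.W804.CY.n_coef

theorem afe : N_AFE := n_afe Pool.Agent.W597.CYN.n_twist eul

/-- the formula for the central value that determines it -/
def Cform (m N : ℕ) (c : ℕ → ℂ) (w : ℂ) (q : ℕ) [NeZero q] (χ : DirichletCharacter ℂ q) (F0 : ℂ) :
    Prop :=
  ∀ X Y : ℝ, 0 < X → 0 < Y → X * Y = N * (q : ℝ) ^ 2 / (4 * Real.pi ^ 2) →
    F0 = ∑' n : ℕ, χ (n : ZMod q) * (c n / (n : ℂ) ^ (m - 1)) / n * (Vk m (n / X) : ℂ) +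
      w * χ (N : ZMod q) * gaussSum χ (ZMod.stdAddChar (N := q)) ^ 2 / q *
        ∑' n : ℕ, (starRingEnd ℂ) (χ (n : ZMod q)) *
          (starRingEnd ℂ) (c n / (n : ℂ) ^ (m - 1)) / n * (Vk m (n / Y) : ℂ)

theorem nonvan {m : ℕ} (hm : 1 ≤ m) {N : ℕ} [NeZero N] {η : DirichletCharacter ℂ N}
    {f : CuspForm (Gamma1 N : Subgroup (GL (Fin 2) ℝ)) (2 * m : ℤ)} {w : ℂ}
    (hf : NNewf m N η f w) {ε : ℝ} (hε : 0 < ε) : ∃ q0 : ℝ, ∀ (q : ℕ) [NeZero q], q0 ≤ q →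
      Nat.Coprime q N → ∀ L : DirichletCharacter ℂ q → ℂ,
      (∀ χ : DirichletCharacter ℂ q, χ.IsPrimitive →
        Cform m N (cf f) (w * η (q : ZMod N)) q χ (L χ)) →
      ∀ χ : DirichletCharacter ℂ q, χ.IsPrimitive → (q : ℝ) ^ (3 / 4 + ε) ≤ orderOf χ →
        L χ ≠ 0 := by
  obtain ⟨S, hS, hgal⟩ := gal_lin (VP f (2 * m - 2)) (VP_fin f _)
  obtain ⟨M, hM, hMσ⟩ := Pool.Agent.TH936.CM.exists_aut_fix S hS
  obtain ⟨CV, hCV⟩ := Pool.Agent.TH936.HK.h_vk m hm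
  obtain ⟨μ, hμ⟩ := Pool.Agent.W804.CY.n_coef m hm N η f w hf
  have hN : 1 ≤ N := Nat.pos_of_ne_zero (NeZero.ne N)
  have hc1 : (fun n : ℕ => cf f n / (n : ℂ) ^ (m - 1)) 1 = 1 := by
    have := hf.one
    simp [this]
  obtain ⟨q0, hq0⟩ := fin_w (Vk m) (1 + CV) (Pool.Agent.TH936.HK.vh_of_vw hCV) N hN _ μ hc1 hμ
    M hM ε hε
  refine ⟨q0, fun q _ hq hqN L hL χ hχ hord h0 => ?_⟩
  have hηq : ‖w * η (q : ZMod N)‖ = 1 := by
    have h1 : IsUnit (q : ZMod N) := (ZMod.isUnit_iff_coprime q N).mpr hqN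
    rw [norm_mul, hf.norm, one_mul]
    obtain ⟨u, hu⟩ := h1
    rw [← hu]
    exact η.unit_norm_eq_one u
  obtain ⟨a, ha, haM, hap, hlow⟩ := hq0 q hq hqN (w * η (q : ZMod N)) hηq L
    (fun ψ hψ X Y hX hY hXY => hL ψ hψ X Y hX hY hXY) χ hχ hord
  obtain ⟨κ, hκ, hcen⟩ := center eul hm hf q
  have hkey : ∀ ψ : DirichletCharacter ℂ q, ψ.IsPrimitive → ∃ K : ℂ, K ≠ 0 ∧
      ∑ u : (ZMod q)ˣ, ψ⁻¹ (u : ZMod q) * κ u = K * L ψ := by
    intro ψ hψ
    obtain ⟨K, hK, h1⟩ := hcen ψ⁻¹ (inv_primitive ψ hψ)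
    refine ⟨K, hK, h1 (L ψ) ((w * η (q : ZMod N)) * ψ (N : ZMod q) *
      gaussSum ψ (ZMod.stdAddChar (N := q)) ^ 2 / q) (fun X Y hX hY hXY => ?_)⟩
    rw [inv_inv]
    exact hL ψ hψ X Y hX hY hXY
  have hD : 0 < orderOf χ := orderOf_pos χ
  obtain ⟨σ, hσS, hσμ⟩ := hMσ (orderOf χ) a hD ha haM
  have hroot : ∀ u : (ZMod q)ˣ, (χ⁻¹ (u : ZMod q)) ^ orderOf χ = 1 := by
    intro u
    have h1 : (χ⁻¹) ^ orderOf χ = 1 := by rw [inv_pow, pow_orderOf_eq_one, inv_one]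
    have h2 := congrArg (fun θ : DirichletCharacter ℂ q => θ (u : ZMod q)) h1
    simp only [MulChar.pow_apply_coe, MulChar.one_apply_coe] at h2
    exact h2
  obtain ⟨K1, hK1, e1⟩ := hkey χ hχ
  obtain ⟨K2, hK2, e2⟩ := hkey (χ ^ a) hap
  rw [h0, mul_zero] at e1
  have h3 := hgal σ hσS Finset.univ (fun u : (ZMod q)ˣ => χ⁻¹ (u : ZMod q)) κ (fun u _ => by
    have : IsIntegral ℚ (χ⁻¹ (u : ZMod q)) := by
      refine IsIntegral.of_pow hD ?_
      rw [hroot u]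
      exact isIntegral_one
    exact this.isAlgebraic) (fun u _ => hκ u) e1
  have h4 : ∀ u : (ZMod q)ˣ, σ (χ⁻¹ (u : ZMod q)) = (χ ^ a)⁻¹ (u : ZMod q) := by
    intro u
    rw [hσμ _ (hroot u), ← inv_pow, MulChar.pow_apply_coe]
  simp only [h4] at h3
  rw [h3] at e2
  have h5 : L (χ ^ a) = 0 := by
    rcases mul_eq_zero.1 e2.symm with h | h
    · exact absurd h hK2
    · exact h
  rw [h5, norm_zero] at hlow
  have hq : (0 : ℝ) < q := Nat.cast_pos.2 (Nat.pos_of_ne_zero (NeZero.ne q))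
  have : 0 < (q : ℝ) ^ (-ε) := by positivity
  linarith

end Pool.Agent.Y683.NF
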