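import Pool.Agent.Y683.NF.Eul
import Pool.Agent.TH936.HK.AFE
import Pool.Agent.W440.TW.Twist
import Pool.Agent.W597.CY.TwistN

/-!
Continuation and central value of the twisted L-function of a newform of weight `2m`.
-/

set_option autoImplicit false

open Complex Filter Topology Set UpperHalfPlane MatrixGroups CongruenceSubgroup ZMod

namespace Pool.Agent.Y683.NF

open Pool.Agent.W192.CY
open Pool.Agent.TH936.HK (mellinK ext_series)
open Pool.Agent.W440.TW (gauss_ne_zero)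

lemma cf_zero {N : ℕ} {k : ℤ} (f : CuspForm (Gamma1 N : Subgroup (GL (Fin 2) ℝ)) k) :
    cf f 0 = 0 := by
  have h1 : (1 : ℝ) ∈ (Gamma1 N : Subgroup (GL (Fin 2) ℝ)).strictPeriods := by simp
  exact CuspFormClass.qExpansion_coeff_zero (Γ := (Gamma1 N : Subgroup (GL (Fin 2) ℝ)))
    (k := k) f one_pos h1

/-- polynomial bound for the coefficients -/
theorem coef_bd (h2 : N_EUL) {m : ℕ} (hm : 1 ≤ m) {N : ℕ} [NeZero N] {η : DirichletCharacter ℂ N}
    {f : CuspForm (Gamma1 N : Subgroup (GL (Fin 2) ℝ)) (2 * m : ℤ)} {w : ℂ}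
    (hf : NNewf m N η f w) (q : ℕ) (χ : DirichletCharacter ℂ q) :
    ∃ C : ℝ, ∀ n : ℕ, 1 ≤ n → ‖χ (n : ZMod q) * cf f n‖ ≤ C * (n : ℝ) ^ ((m : ℝ) + 1) := by
  have hs := (h2 m hm N η f w hf q χ ((((m : ℝ) + 1 : ℝ)) : ℂ)
    (by rw [Complex.ofReal_re]; linarith)).1
  refine ⟨∑' n : ℕ, ‖χ (n : ZMod q) * cf f n * (n : ℂ) ^ (-((((m : ℝ) + 1 : ℝ)) : ℂ))‖,
    fun n hn => ?_⟩
  have hn' : (0 : ℝ) < n := by exact_mod_cast hn
  have h3 := hs.le_tsum n (fun j _ => norm_nonneg _)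
  have h4 : ‖(n : ℂ) ^ (-((((m : ℝ) + 1 : ℝ)) : ℂ))‖ = (n : ℝ) ^ (-((m : ℝ) + 1)) := by
    have := Complex.norm_cpow_eq_rpow_re_of_pos hn' (-((((m : ℝ) + 1 : ℝ)) : ℂ))
    rw [Complex.ofReal_natCast] at this
    rw [this, Complex.neg_re, Complex.ofReal_re]
  rw [norm_mul, h4] at h3
  have h5 : (n : ℝ) ^ (-((m : ℝ) + 1)) * (n : ℝ) ^ ((m : ℝ) + 1) = 1 := by
    rw [← Real.rpow_add hn', neg_add_cancel, Real.rpow_zero]
  calc ‖χ (n : ZMod q) * cf f n‖
      = ‖χ (n : ZMod q) * cf f n‖ * (n : ℝ) ^ (-((m : ℝ) + 1)) * (n : ℝ) ^ ((m : ℝ) + 1) := by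
        rw [mul_assoc, h5, mul_one]
    _ ≤ _ := mul_le_mul_of_nonneg_right h3 (by positivity)

theorem n_afe (h1 : N_TWIST) (h2 : N_EUL) : N_AFE := by
  intro m hm N _ η f w hf q _ χ hco hpr
  have hNn : 0 < N := Nat.pos_of_ne_zero (NeZero.ne N)
  have hN : (0 : ℝ) < N := by exact_mod_cast hNn
  have hq : (0 : ℝ) < q := by exact_mod_cast Nat.pos_of_ne_zero (NeZero.ne q)
  have hsN : 0 < Real.sqrt N := Real.sqrt_pos.2 hN
  have hc0 : cf f 0 = 0 := cf_zero f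
  have hm1 : (1 : ℝ) ≤ m := by exact_mod_cast hm
  have hsum0 : ∀ s : ℂ, (m : ℝ) + 1 / 2 < s.re →
      Summable (fun n : ℕ => ‖χ (n : ZMod q) * cf f n * (n : ℂ) ^ (-s)‖) :=
    fun s hs => (h2 m hm N η f w hf q χ s hs).1
  -- the coefficient bound
  obtain ⟨C, hC⟩ := coef_bd h2 hm hf q χ
  set R : ℝ := Real.sqrt N * q with hR
  have hRp : 0 < R := by positivity
  set W : ℂ := (w * η (q : ZMod N)) * χ (N : ZMod q) * gaussSum χ (stdAddChar (N := q)) ^ 2 / q
    with hW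
  have hW0 : W ≠ 0 := by
    have g1 : w ≠ 0 := by
      intro h
      have := hf.norm
      rw [h, norm_zero] at this
      exact zero_ne_one this
    have g1' : η (q : ZMod N) ≠ 0 := by
      have hu : IsUnit (q : ZMod N) := (ZMod.isUnit_iff_coprime q N).2 hco
      exact (hu.map η).ne_zero
    have g2 : χ (N : ZMod q) ≠ 0 := by
      have hu : IsUnit (N : ZMod q) := (ZMod.isUnit_iff_coprime N q).2 hco.symm
      exact (hu.map χ).ne_zero
    have g3 := gauss_ne_zero χ hpr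
    have g4 : (q : ℂ) ≠ 0 := Nat.cast_ne_zero.2 (NeZero.ne q)
    rw [hW]
    exact div_ne_zero (mul_ne_zero (mul_ne_zero (mul_ne_zero g1 g1') g2) (pow_ne_zero 2 g3)) g4
  obtain ⟨F, hFd, hFs, hFc⟩ := mellinK m hm
    (b := fun n => χ (n : ZMod q) * cf f n)
    (m := (m : ℝ) + 1) (C := C) hRp (by rw [hc0, mul_zero])
    (by positivity) hC hW0
    (fun t ht => h1 m hm N η f w hf q χ hco hpr t ht)
  refine ⟨F, hFd, fun s hs => ?_, fun X Y hX hY hXY => ?_⟩
  · -- continuation of the series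
    refine ext_series F hFd (fun n => χ (n : ZMod q) * cf f n) ?_ ((m : ℝ) + 1 / 2) hsum0
      ((m : ℝ) + 1 + 2) (fun s hs => hFs s hs) s hs
    simp only [hc0, mul_zero]
  · have hXY' : X * Y = R ^ 2 / (4 * Real.pi ^ 2) := by
      rw [hXY, hR, mul_pow, Real.sq_sqrt hN.le]
    rw [hFc X Y hX hY hXY']
    have hpw : ∀ n : ℕ, (n : ℂ) ^ m = (n : ℂ) ^ (m - 1) * n := by
      intro n
      rw [← pow_succ]
      congr 1
      omega
    congr 1
    · refine tsum_congr fun n => ?_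
      rw [hpw n, mul_div_assoc, mul_div_assoc, div_div]
    · congr 1
      refine tsum_congr fun n => ?_
      rw [map_mul, map_div₀, map_pow, Complex.conj_natCast, hpw n, mul_div_assoc, mul_div_assoc,
        div_div]

end Pool.Agent.Y683.NF
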