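import Pool.Agent.Y683.NF.Mel

/-!
Growth of the continuation of a Dirichlet series with functional equation, weight `2 κ`.
-/

set_option autoImplicit false

open Complex Filter Topology Set MeasureTheory

namespace Pool.Agent.Y683.NF

open Pool.Agent.W108.TW

theorem growth (κ : ℕ) (m C : ℝ) (hm : 0 ≤ m) : ∃ K A : ℝ, 0 < K ∧ 0 ≤ A ∧
    ∀ (b : ℕ → ℂ) (R : ℝ), 1 ≤ R → b 0 = 0 →
    (∀ n : ℕ, 1 ≤ n → ‖b n‖ ≤ C * (n : ℝ) ^ m) → ∀ w : ℂ, ‖w‖ = 1 →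
    (∀ t : ℝ, 0 < t → ∑' n : ℕ, b n * (Real.exp (-(2 * Real.pi * n / R) / t) : ℂ) =
      w * (t : ℂ) ^ (2 * κ) * ∑' n : ℕ, (starRingEnd ℂ) (b n) *
        (Real.exp (-(2 * Real.pi * n / R) * t) : ℂ)) →
    ∀ s : ℂ, ‖s - κ‖ ≤ 8 → MellinConvergent (Th b (2 * Real.pi / R)) s →
      ‖mellin (Th b (2 * Real.pi / R)) s * ((2 * Real.pi / R : ℝ) : ℂ) ^ s *
        (Complex.Gamma s)⁻¹‖ ≤ K * R ^ A := by
  have hpi := Real.pi_pos
  obtain ⟨KG, hKG⟩ : ∃ KG : ℝ, ∀ z : ℂ, z ∈ Metric.closedBall (κ : ℂ) 8 →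
      ‖(Complex.Gamma z)⁻¹‖ ≤ KG :=
    (isCompact_closedBall (κ : ℂ) 8).exists_bound_of_continuousOn
      Complex.differentiable_one_div_Gamma.continuous.continuousOn
  set Z : ℝ := ∑' n : ℕ, (n : ℝ) ^ (-(2 : ℝ)) with hZ
  have hZ0 : 0 ≤ Z := tsum_nonneg fun n => by positivity
  set A1 : ℝ := κ + 8 + (m + 2) with hA1
  have hκ0 : (0 : ℝ) ≤ κ := Nat.cast_nonneg κ
  have hA1p : 0 < A1 := by rw [hA1]; linarith
  have hGA : 0 < Real.Gamma A1 := Real.Gamma_pos_of_pos hA1p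
  refine ⟨2 * (|C| * Real.Gamma A1 * Z) * (2 * Real.pi) ^ ((κ : ℝ) + 8) * |KG| + 1, A1 + 8,
    by positivity, by linarith, ?_⟩
  intro b R hR hb0 hb w hw hfe s hs hconv
  have hR0 : 0 < R := by linarith
  set c : ℝ := 2 * Real.pi / R with hc'
  have hc : 0 < c := by positivity
  have hb' : ∀ n : ℕ, 1 ≤ n → ‖(starRingEnd ℂ) (b n)‖ ≤ C * (n : ℝ) ^ m := by
    intro n hn; rw [RCLike.norm_conj]; exact hb n hn
  have hb0' : (starRingEnd ℂ) (b 0) = 0 := by rw [hb0, map_zero]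
  have hrel : ∀ t : ℝ, 0 < t → Th b c (t⁻¹) =
      w * (t : ℂ) ^ (2 * κ) * Th (fun n => (starRingEnd ℂ) (b n)) c t := by
    intro t ht
    have h := hfe t ht
    rw [Th, Th]
    have e1 : ∀ n : ℕ, -(c * n) * t⁻¹ = -(2 * Real.pi * n / R) / t := by
      intro n; rw [hc']; ring
    have e2 : ∀ n : ℕ, -(c * n) * t = -(2 * Real.pi * n / R) * t := by
      intro n; rw [hc']; ring
    simp only [e1, e2]
    exact h
  -- real parts
  have hre : |s.re - κ| ≤ 8 := by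
    have h1 := Complex.abs_re_le_norm (s - κ)
    rw [Complex.sub_re, Complex.natCast_re] at h1
    exact h1.trans hs
  have hre1 : s.re ≤ κ + 8 := by linarith [(abs_le.1 hre).2]
  have hre2 : (κ : ℝ) - 8 ≤ s.re := by linarith [(abs_le.1 hre).1]
  -- the Mellin transform
  have hsplit : mellin (Th b c) s =
      (∫ t in Ioc (0 : ℝ) 1, (t : ℂ) ^ (s - 1) * Th b c t) +
        ∫ t in Ioi (1 : ℝ), (t : ℂ) ^ (s - 1) * Th b c t := by
    rw [mellin]
    simp only [smul_eq_mul]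
    have hint : IntegrableOn (fun t : ℝ => (t : ℂ) ^ (s - 1) * Th b c t) (Ioi 0) := hconv
    rw [← Ioc_union_Ioi_eq_Ioi zero_le_one]
    refine setIntegral_union ?_ measurableSet_Ioi (hint.mono_set Ioc_subset_Ioi_self)
      (hint.mono_set (Ioi_subset_Ioi zero_le_one))
    rw [Set.disjoint_left]
    intro x hx hx'
    exact absurd hx.2 (not_le.2 hx')
  have hcR : c⁻¹ ≤ R := by
    rw [hc', inv_div, div_le_iff₀ (by positivity)]
    have h2 : (1 : ℝ) ≤ 2 * Real.pi := by linarith [Real.pi_gt_three]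
    nlinarith
  have hcA : c⁻¹ ^ A1 ≤ R ^ A1 := Real.rpow_le_rpow (by positivity) hcR hA1p.le
  have hU : |C| * (Real.Gamma A1 * c⁻¹ ^ A1) * Z ≤ |C| * Real.Gamma A1 * Z * R ^ A1 := by
    have : |C| * (Real.Gamma A1 * c⁻¹ ^ A1) * Z = |C| * Real.Gamma A1 * Z * c⁻¹ ^ A1 := by ring
    rw [this]
    exact mul_le_mul_of_nonneg_left hcA (by positivity)
  have h1 : ‖∫ t in Ioi (1 : ℝ), (t : ℂ) ^ (s - 1) * Th b c t‖ ≤
      |C| * Real.Gamma A1 * Z * R ^ A1 :=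
    (mellin_upK hA1p (by rw [hA1]; linarith) hb0 hb hc s (by rw [hA1]; linarith)).trans hU
  have h2 : ‖∫ t in Ioc (0 : ℝ) 1, (t : ℂ) ^ (s - 1) * Th b c t‖ ≤
      |C| * Real.Gamma A1 * Z * R ^ A1 := by
    rw [mellin_lowK κ _ _ w s hrel, norm_mul, hw, one_mul]
    refine (mellin_upK hA1p (by rw [hA1]; linarith) hb0' hb' hc _ ?_).trans hU
    have : (2 * (κ : ℂ) - s).re = 2 * κ - s.re := by simp
    rw [this, hA1]
    linarith
  have h3 : ‖mellin (Th b c) s‖ ≤ 2 * (|C| * Real.Gamma A1 * Z) * R ^ A1 := by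
    rw [hsplit]
    refine (norm_add_le _ _).trans ?_
    linarith
  have h4 : ‖((c : ℝ) : ℂ) ^ s‖ ≤ (2 * Real.pi) ^ ((κ : ℝ) + 8) * R ^ (8 : ℝ) := by
    rw [Complex.norm_cpow_eq_rpow_re_of_pos hc, hc', Real.div_rpow (by positivity) hR0.le,
      div_eq_mul_inv, ← Real.rpow_neg hR0.le]
    refine mul_le_mul ?_ ?_ (by positivity) (by positivity)
    · exact Real.rpow_le_rpow_of_exponent_le (by linarith [Real.pi_gt_three]) hre1
    · exact Real.rpow_le_rpow_of_exponent_le hR (by linarith)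
  have h5 : ‖(Complex.Gamma s)⁻¹‖ ≤ |KG| := by
    refine (hKG s ?_).trans (le_abs_self _)
    rw [Metric.mem_closedBall, dist_eq_norm]
    exact hs
  rw [norm_mul, norm_mul]
  calc ‖mellin (Th b c) s‖ * ‖((c : ℝ) : ℂ) ^ s‖ * ‖(Complex.Gamma s)⁻¹‖ ≤
        (2 * (|C| * Real.Gamma A1 * Z) * R ^ A1) *
          ((2 * Real.pi) ^ ((κ : ℝ) + 8) * R ^ (8 : ℝ)) * |KG| := by
        refine mul_le_mul (mul_le_mul h3 h4 (norm_nonneg _) (by positivity)) h5 (norm_nonneg _)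
          (by positivity)
    _ = 2 * (|C| * Real.Gamma A1 * Z) * (2 * Real.pi) ^ ((κ : ℝ) + 8) * |KG| *
          (R ^ A1 * R ^ (8 : ℝ)) := by ring
    _ = 2 * (|C| * Real.Gamma A1 * Z) * (2 * Real.pi) ^ ((κ : ℝ) + 8) * |KG| * R ^ (A1 + 8) := by
        rw [← Real.rpow_add hR0]
    _ ≤ _ := by
        refine mul_le_mul_of_nonneg_right ?_ (by positivity)
        linarith

end Pool.Agent.Y683.NF
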