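import Pool.Agent.TH936.HK.Mel
import Pool.Agent.TH940.Ord

/-!
Growth of the continuation of a Dirichlet series with functional equation, weight `2 κ`.
-/

set_option autoImplicit false

open Complex Filter Topology Set MeasureTheory

namespace Pool.Agent.Y683.NF

open Pool.Agent.W192.CY (VW Vk K_VK)
open Pool.Agent.W108.TW
open Pool.Agent.TH936.HK (cp_cpow int_Th int_low)

/-- `mellinK` with the formula for the continuation -/
theorem mellinK2 (κ : ℕ) (hκ : 1 ≤ κ) {b : ℕ → ℂ} {m C R : ℝ} (hR : 0 < R) (hb0 : b 0 = 0)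
    (hm : 0 ≤ m)
    (hb : ∀ n : ℕ, 1 ≤ n → ‖b n‖ ≤ C * (n : ℝ) ^ m) {w : ℂ} (hw : w ≠ 0)
    (hfe : ∀ t : ℝ, 0 < t → ∑' n : ℕ, b n * (Real.exp (-(2 * Real.pi * n / R) / t) : ℂ) =
      w * (t : ℂ) ^ (2 * κ) * ∑' n : ℕ, (starRingEnd ℂ) (b n) *
        (Real.exp (-(2 * Real.pi * n / R) * t) : ℂ)) :
    ∃ F : ℂ → ℂ, Differentiable ℂ F ∧
      (∀ s : ℂ, m + 2 < s.re → F s = ∑' n : ℕ, b n * (n : ℂ) ^ (-s)) ∧
      (∀ X Y : ℝ, 0 < X → 0 < Y → X * Y = R ^ 2 / (4 * Real.pi ^ 2) →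
        F κ = ∑' n : ℕ, b n / (n : ℂ) ^ κ * (Vk κ (n / X) : ℂ) +
          w * ∑' n : ℕ, (starRingEnd ℂ) (b n) / (n : ℂ) ^ κ * (Vk κ (n / Y) : ℂ)) ∧
      ∀ s : ℂ, MellinConvergent (Th b (2 * Real.pi / R)) s ∧
        F s = mellin (Th b (2 * Real.pi / R)) s * ((2 * Real.pi / R : ℝ) : ℂ) ^ s *
          (Complex.Gamma s)⁻¹ := by
  have hpi := Real.pi_pos
  set c : ℝ := 2 * Real.pi / R with hc'
  have hc : 0 < c := by positivity
  have hb' : ∀ n : ℕ, 1 ≤ n → ‖(starRingEnd ℂ) (b n)‖ ≤ C * (n : ℝ) ^ m := by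
    intro n hn; rw [RCLike.norm_conj]; exact hb n hn
  have hb0' : (starRingEnd ℂ) (b 0) = 0 := by rw [hb0, map_zero]
  have hrel : ∀ x : ℝ, 0 < x → Th b c (1 / x) =
      w * (x : ℂ) ^ (2 * κ) * Th (fun n => (starRingEnd ℂ) (b n)) c x := by
    intro x hx
    have h := hfe x hx
    rw [Th, Th]
    have e1 : ∀ n : ℕ, -(c * n) * (1 / x) = -(2 * Real.pi * n / R) / x := by
      intro n; rw [hc']; ring
    have e2 : ∀ n : ℕ, -(c * n) * x = -(2 * Real.pi * n / R) * x := by
      intro n; rw [hc']; ring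
    simp only [e1, e2]
    exact h
  let P : WeakFEPair ℂ :=
    { f := Th b c
      g := Th (fun n => (starRingEnd ℂ) (b n)) c
      k := ((2 * κ : ℕ) : ℝ)
      ε := w
      f₀ := 0
      g₀ := 0
      hf_int := (continuousOn_Th hb0 hb hc).locallyIntegrableOn measurableSet_Ioi
      hg_int := (continuousOn_Th hb0' hb' hc).locallyIntegrableOn measurableSet_Ioi
      hk := by
        have : 0 < 2 * κ := by omega
        exact_mod_cast this
      hε := hw
      h_feq := by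
        intro x (hx : 0 < x)
        rw [hrel x hx, smul_eq_mul]
        congr 2
        rw [Real.rpow_natCast]
        push_cast
        rfl
      hf_top := Th_isBigO hb0 hb hc
      hg_top := Th_isBigO hb0' hb' hc }
  have hP : IsStrongFEPair P := ⟨rfl, rfl⟩
  have hΛf : P.Λ = mellin (Th b c) := hP.Λ_eq
  have hcC : (c : ℂ) ≠ 0 := by exact_mod_cast hc.ne'
  let F : ℂ → ℂ := fun s => P.Λ s * (c : ℂ) ^ s * (Complex.Gamma s)⁻¹
  refine ⟨F, ?_, ?_, ?_, fun s => ⟨(hP.hasMellin s).1, by simp only [F]; rw [hΛf]⟩⟩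
  · -- differentiable
    have h1 : Differentiable ℂ (fun s : ℂ => P.Λ s) := hP.differentiable_Λ
    have h2 : Differentiable ℂ (fun s : ℂ => (c : ℂ) ^ s) := by
      intro s
      exact (DifferentiableAt.const_cpow (by fun_prop) (Or.inl hcC))
    have h3 : Differentiable ℂ (fun s : ℂ => (Complex.Gamma s)⁻¹) :=
      Complex.differentiable_one_div_Gamma
    exact (h1.mul h2).mul h3
  · -- Dirichlet series
    intro S hSm
    have hSpos : 0 < S.re := by linarith
    have hG : Complex.Gamma S ≠ 0 := Complex.Gamma_ne_zero_of_re_pos hSpos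
    have h1 := hasSum_mellin (a := b) (p := fun n : ℕ => c * n) (F := Th b c) (s := S)
      (by
        intro n
        rcases Nat.eq_zero_or_pos n with rfl | hn
        · exact Or.inl hb0
        · right
          have : (0 : ℝ) < n := by exact_mod_cast hn
          positivity) hSpos
      (by
        intro t (ht : 0 < t)
        exact (summable_term hb0 hb hc ht).hasSum)
      (by
        have h2 : Summable (fun n : ℕ => |C| / c ^ S.re * (n : ℝ) ^ (m - S.re)) :=
          (Real.summable_nat_rpow.mpr (by linarith)).mul_left _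
        refine Summable.of_nonneg_of_le (fun n => by positivity) (fun n => ?_) h2
        rcases Nat.eq_zero_or_pos n with rfl | hn
        · rw [hb0, norm_zero, zero_div]; positivity
        · have hn' : (0 : ℝ) < n := by exact_mod_cast hn
          have h3 : ‖b n‖ ≤ |C| * (n : ℝ) ^ m :=
            (hb n hn).trans (mul_le_mul_of_nonneg_right (le_abs_self C) (by positivity))
          rw [Real.mul_rpow hc.le hn'.le, Real.rpow_sub hn', div_mul_div_comm]
          exact div_le_div_of_nonneg_right h3 (by positivity))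
    have h2 := h1.tsum_eq
    have h3 : F S = (∑' n : ℕ, Complex.Gamma S * b n / ((c * n : ℝ) : ℂ) ^ S) * (c : ℂ) ^ S *
        (Complex.Gamma S)⁻¹ := by
      simp only [F]
      rw [hΛf, ← h2]
    have hcs : (c : ℂ) ^ S ≠ 0 := by
      rw [Complex.cpow_def_of_ne_zero hcC]; exact Complex.exp_ne_zero _
    rw [h3, ← tsum_mul_right, ← tsum_mul_right]
    refine tsum_congr (fun n => ?_)
    rcases Nat.eq_zero_or_pos n with rfl | hn
    · rw [hb0]; simp
    · have hn' : (n : ℂ) ≠ 0 := by exact_mod_cast hn.ne'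
      have hnS : (n : ℂ) ^ S ≠ 0 := by
        rw [Complex.cpow_def_of_ne_zero hn']; exact Complex.exp_ne_zero _
      rw [Complex.ofReal_mul, Complex.mul_cpow_ofReal_nonneg hc.le (Nat.cast_nonneg n),
        Complex.cpow_neg]
      simp only [Complex.ofReal_natCast]
      field_simp
  · -- the central value
    intro X Y hX hY hXY
    have hc2 : c ^ 2 * (X * Y) = 1 := by
      rw [hXY, hc']
      field_simp
      ring
    set t0 : ℝ := 1 / (c * X) with ht0
    have ht0p : 0 < t0 := by positivity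
    have hFa : (((κ - 1).factorial : ℕ) : ℂ) ≠ 0 := by
      exact_mod_cast (Nat.factorial_pos (κ - 1)).ne'
    have hGam : Complex.Gamma (κ : ℂ) = (((κ - 1).factorial : ℕ) : ℂ) := by
      obtain ⟨j, rfl⟩ : ∃ j, κ = j + 1 := ⟨κ - 1, by omega⟩
      simp only [Nat.add_sub_cancel]
      push_cast
      exact Complex.Gamma_nat_eq_factorial j
    have e1 : F κ = (c : ℂ) ^ κ / (((κ - 1).factorial : ℕ) : ℂ) *
        ∫ t in Ioi (0 : ℝ), (t : ℂ) ^ (κ - 1) * Th b c t := by
      simp only [F]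
      rw [hGam, hΛf, Complex.cpow_natCast, mellin]
      have e0 : ∀ t ∈ Ioi (0 : ℝ), (t : ℂ) ^ ((κ : ℂ) - 1) • Th b c t =
          (t : ℂ) ^ (κ - 1) * Th b c t := by
        intro t ht
        rw [cp_cpow κ hκ, smul_eq_mul]
      rw [setIntegral_congr_fun measurableSet_Ioi e0]
      field_simp
    have hInt : IntegrableOn (fun t : ℝ => (t : ℂ) ^ (κ - 1) * Th b c t) (Ioi 0) := by
      have h1 := (hP.hasMellin (κ : ℂ)).1
      have h2 : IntegrableOn (fun t : ℝ => (t : ℂ) ^ ((κ : ℂ) - 1) • Th b c t) (Ioi 0) := h1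
      refine IntegrableOn.congr_fun h2 (fun t ht => ?_) measurableSet_Ioi
      show (t : ℂ) ^ ((κ : ℂ) - 1) • Th b c t = (t : ℂ) ^ (κ - 1) * Th b c t
      rw [cp_cpow κ hκ, smul_eq_mul]
    have e2 : ∫ t in Ioi (0 : ℝ), (t : ℂ) ^ (κ - 1) * Th b c t =
        (∫ t in Ioc (0 : ℝ) t0, (t : ℂ) ^ (κ - 1) * Th b c t) +
          ∫ t in Ioi t0, (t : ℂ) ^ (κ - 1) * Th b c t := by
      rw [← Ioc_union_Ioi_eq_Ioi ht0p.le]
      refine setIntegral_union ?_ measurableSet_Ioi (hInt.mono_set Ioc_subset_Ioi_self)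
        (hInt.mono_set (Ioi_subset_Ioi ht0p.le))
      rw [Set.disjoint_left]
      intro x hx hx'
      exact absurd hx.2 (not_le.2 hx')
    have e3 : ∫ t in Ioc (0 : ℝ) t0, (t : ℂ) ^ (κ - 1) * Th b c t =
        w * ∫ t in Ioi t0⁻¹, (t : ℂ) ^ (κ - 1) * Th (fun n => (starRingEnd ℂ) (b n)) c t := by
      refine int_low κ hκ _ _ w t0 ht0p fun t ht => ?_
      rw [← one_div]
      exact hrel t ht
    have hcX : t0⁻¹ = c * X := by rw [ht0]; field_simp
    have hterm : ∀ (z : ℂ) (n : ℕ) (T Z : ℝ), (n = 0 → z = 0) → c * n * T = n / Z →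
        (c : ℂ) ^ κ / (((κ - 1).factorial : ℕ) : ℂ) *
          (z * ((((c * n) ^ κ)⁻¹ * (((κ - 1).factorial : ℝ) * Vk κ (c * n * T)) : ℝ) : ℂ)) =
        z / (n : ℂ) ^ κ * (Vk κ (n / Z) : ℂ) := by
      intro z n T Z hz hT
      rcases Nat.eq_zero_or_pos n with rfl | hn
      · rw [hz rfl]; simp
      · have hn' : (n : ℂ) ≠ 0 := by exact_mod_cast hn.ne'
        rw [hT]
        push_cast
        rw [mul_pow]
        field_simp
    rw [e1, e2, e3, int_Th κ hκ hb0 hb hc ht0p, int_Th κ hκ hb0' hb' hc (inv_pos.2 ht0p), mul_add,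
      add_comm, mul_left_comm, ← tsum_mul_left, ← tsum_mul_left]
    congr 1
    · refine tsum_congr fun n => hterm (b n) n t0 X (fun h => by rw [h, hb0]) ?_
      rw [ht0]
      field_simp
    · congr 1
      refine tsum_congr fun n => hterm _ n t0⁻¹ Y (fun h => by rw [h, hb0']) ?_
      rw [hcX]
      have h2 : c * (c * X) = 1 / Y := by
        rw [eq_div_iff hY.ne']
        linarith
      calc c * n * (c * X) = n * (c * (c * X)) := by ring
        _ = _ := by rw [h2]; ring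



lemma mellin_lowK (κ : ℕ) (g g' : ℝ → ℂ) (w s : ℂ)
    (h : ∀ t : ℝ, 0 < t → g (t⁻¹) = w * (t : ℂ) ^ (2 * κ) * g' t) :
    ∫ t in Ioc (0 : ℝ) 1, (t : ℂ) ^ (s - 1) * g t =
      w * ∫ t in Ioi (1 : ℝ), (t : ℂ) ^ ((2 * κ - s) - 1) * g' t := by
  have h1 : ∫ t in Ioc (0 : ℝ) 1, (t : ℂ) ^ (s - 1) * g t = mellin ((Iic 1).indicator g) s := by
    rw [mellin]
    have e0 : ∀ t ∈ Ioi (0 : ℝ), (t : ℂ) ^ (s - 1) • (Iic (1 : ℝ)).indicator g t =
        (Iic (1 : ℝ)).indicator (fun t : ℝ => (t : ℂ) ^ (s - 1) * g t) t := by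
      intro t (ht0 : 0 < t)
      by_cases ht' : t ∈ Iic (1 : ℝ)
      · rw [indicator_of_mem ht', indicator_of_mem ht', smul_eq_mul]
      · rw [indicator_of_notMem ht', indicator_of_notMem ht', smul_zero]
    rw [setIntegral_congr_fun measurableSet_Ioi e0, setIntegral_indicator measurableSet_Iic]
    rfl
  have h2 : mellin ((Iic 1).indicator g) s =
      mellin (fun t => (Iic 1).indicator g t⁻¹) (-s) := by
    rw [mellin_comp_inv, neg_neg]
  rw [h1, h2, mellin]
  have h3 : ∀ t ∈ Ioi (0 : ℝ), (t : ℂ) ^ (-s - 1) • (Iic (1 : ℝ)).indicator g t⁻¹ =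
      (Ici (1 : ℝ)).indicator (fun t : ℝ => w * ((t : ℂ) ^ ((2 * κ - s) - 1) * g' t)) t := by
    intro t (ht' : 0 < t)
    by_cases hh : t⁻¹ ≤ 1
    · have hh' : 1 ≤ t := by
        have := inv_le_of_inv_le₀ ht' hh
        simpa using this
      rw [indicator_of_mem (show t⁻¹ ∈ Iic (1 : ℝ) from hh),
        indicator_of_mem (show t ∈ Ici (1 : ℝ) from hh')]
      rw [h t ht', smul_eq_mul]
      have htc : (t : ℂ) ≠ 0 := by exact_mod_cast ht'.ne'
      have e2 : (t : ℂ) ^ (-s - 1) * (t : ℂ) ^ (2 * κ) = (t : ℂ) ^ ((2 * κ - s) - 1) := by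
        rw [← Complex.cpow_natCast, ← Complex.cpow_add _ _ htc]
        congr 1
        push_cast
        ring
      calc (t : ℂ) ^ (-s - 1) * (w * (t : ℂ) ^ (2 * κ) * g' t)
          = ((t : ℂ) ^ (-s - 1) * (t : ℂ) ^ (2 * κ)) * (w * g' t) := by ring
        _ = _ := by rw [e2]; ring
    · have hh' : ¬ (1 : ℝ) ≤ t := fun h' => hh (inv_le_one_of_one_le₀ h')
      rw [indicator_of_notMem (show t⁻¹ ∉ Iic (1 : ℝ) from hh),
        indicator_of_notMem (show t ∉ Ici (1 : ℝ) from hh'), smul_zero]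
  rw [setIntegral_congr_fun measurableSet_Ioi h3, setIntegral_indicator measurableSet_Ici]
  have h4 : Ioi (0 : ℝ) ∩ Ici 1 = Ici 1 := by
    apply inter_eq_right.2
    intro x hx
    exact lt_of_lt_of_le one_pos (show (1 : ℝ) ≤ x from hx)
  rw [h4, integral_Ici_eq_integral_Ioi, integral_const_mul]

/-- bound for the upper part of the Mellin transform -/
lemma mellin_upK {A : ℝ} (hA : 0 < A) {b : ℕ → ℂ} {m C : ℝ} (hm : m ≤ A - 2) (hb0 : b 0 = 0)
    (hb : ∀ n : ℕ, 1 ≤ n → ‖b n‖ ≤ C * (n : ℝ) ^ m) {c : ℝ} (hc : 0 < c) (s : ℂ)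
    (hs : s.re ≤ A) :
    ‖∫ t in Ioi (1 : ℝ), (t : ℂ) ^ (s - 1) * Th b c t‖ ≤
      |C| * (Real.Gamma A * c⁻¹ ^ A) * ∑' n : ℕ, (n : ℝ) ^ (-(2 : ℝ)) := by
  have hZ : Summable (fun n : ℕ => (n : ℝ) ^ (-(2 : ℝ))) := Real.summable_nat_rpow.2 (by norm_num)
  have hG9 : 0 < Real.Gamma A := Real.Gamma_pos_of_pos hA
  -- the majorant for one term
  have hI : ∀ n : ℕ, 1 ≤ n → IntegrableOn (fun t : ℝ => t ^ (A - 1) * Real.exp (-(c * n * t)))
      (Ioi 0) ∧ ∫ t in Ioi (0 : ℝ), t ^ (A - 1) * Real.exp (-(c * n * t)) =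
        (1 / (c * n)) ^ A * Real.Gamma A := by
    intro n hn
    have hn' : (0 : ℝ) < n := by exact_mod_cast hn
    have h0 : 0 < c * n := by positivity
    refine ⟨?_, Real.integral_rpow_mul_exp_neg_mul_Ioi hA h0⟩
    have h1 := Real.integral_rpow_mul_exp_neg_mul_Ioi (a := A) (r := c * n) hA h0
    by_contra hni
    rw [integral_undef hni] at h1
    have : 0 < (1 / (c * n)) ^ A * Real.Gamma A := by positivity
    linarith
  have hterm : ∀ (n : ℕ) (t : ℝ), t ∈ Ioi (1 : ℝ) →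
      ‖(t : ℂ) ^ (s - 1) * (b n * (Real.exp (-(c * n) * t) : ℂ))‖ ≤
        ‖b n‖ * (t ^ (A - 1) * Real.exp (-(c * n * t))) := by
    intro n t (ht : 1 < t)
    have ht0 : 0 < t := by linarith
    rw [norm_mul, norm_mul, Complex.norm_cpow_eq_rpow_re_of_pos ht0, Complex.norm_real,
      Real.norm_eq_abs, Real.abs_exp]
    have h1 : t ^ (s - 1).re ≤ t ^ (A - 1) := by
      refine Real.rpow_le_rpow_of_exponent_le ht.le ?_
      rw [Complex.sub_re, Complex.one_re]
      linarith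
    have e : Real.exp (-(c * n) * t) = Real.exp (-(c * n * t)) := by congr 1; ring
    rw [e]
    calc t ^ (s - 1).re * (‖b n‖ * Real.exp (-(c * n * t))) ≤
          t ^ (A - 1) * (‖b n‖ * Real.exp (-(c * n * t))) :=
          mul_le_mul_of_nonneg_right h1 (by positivity)
      _ = _ := by ring
  have hmeas : ∀ n : ℕ, AEStronglyMeasurable (fun t : ℝ =>
      (t : ℂ) ^ (s - 1) * (b n * (Real.exp (-(c * n) * t) : ℂ))) (volume.restrict (Ioi 1)) := by
    intro n
    refine ContinuousOn.aestronglyMeasurable ?_ measurableSet_Ioi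
    refine ContinuousOn.mul ?_ (by fun_prop)
    refine continuousOn_of_forall_continuousAt fun t (ht : 1 < t) => ?_
    exact Complex.continuousAt_ofReal_cpow_const _ _ (Or.inr (by linarith : t ≠ 0))
  have hint : ∀ n : ℕ, Integrable (fun t : ℝ =>
      (t : ℂ) ^ (s - 1) * (b n * (Real.exp (-(c * n) * t) : ℂ))) (volume.restrict (Ioi 1)) := by
    intro n
    rcases Nat.eq_zero_or_pos n with rfl | hn
    · rw [hb0]
      simp only [zero_mul, mul_zero]
      exact integrable_zero _ _ _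
    · have h1 : IntegrableOn (fun t : ℝ => ‖b n‖ * (t ^ (A - 1) * Real.exp (-(c * n * t))))
          (Ioi 1) := ((hI n hn).1.mono_set (Ioi_subset_Ioi (by norm_num))).const_mul _
      refine Integrable.mono' h1 (hmeas n) ?_
      exact (ae_restrict_iff' measurableSet_Ioi).2 (Eventually.of_forall (hterm n))
  have hnorm : ∀ n : ℕ, ∫ t in Ioi (1 : ℝ), ‖(t : ℂ) ^ (s - 1) *
      (b n * (Real.exp (-(c * n) * t) : ℂ))‖ ≤
      |C| * (Real.Gamma A * c⁻¹ ^ A) * (n : ℝ) ^ (-(2 : ℝ)) := by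
    intro n
    rcases Nat.eq_zero_or_pos n with rfl | hn
    · rw [hb0]
      simp only [zero_mul, mul_zero, norm_zero, integral_zero]
      positivity
    · have hn' : (1 : ℝ) ≤ n := by exact_mod_cast hn
      have hn0 : (0 : ℝ) < n := by linarith
      have h0 : 0 < c * n := by positivity
      have h1 : ∫ t in Ioi (1 : ℝ), ‖(t : ℂ) ^ (s - 1) *
          (b n * (Real.exp (-(c * n) * t) : ℂ))‖ ≤
          ∫ t in Ioi (1 : ℝ), ‖b n‖ * (t ^ (A - 1) * Real.exp (-(c * n * t))) := by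
        refine setIntegral_mono_on (hint n).norm
          (((hI n hn).1.mono_set (Ioi_subset_Ioi (by norm_num))).const_mul _) measurableSet_Ioi ?_
        intro t ht
        exact hterm n t ht
      have h2 : ∫ t in Ioi (1 : ℝ), ‖b n‖ * (t ^ (A - 1) * Real.exp (-(c * n * t))) ≤
          ∫ t in Ioi (0 : ℝ), ‖b n‖ * (t ^ (A - 1) * Real.exp (-(c * n * t))) := by
        refine setIntegral_mono_set ((hI n hn).1.const_mul _) ?_ ?_
        · refine (ae_restrict_iff' measurableSet_Ioi).2 (Eventually.of_forall ?_)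
          intro t (ht : 0 < t)
          positivity
        · exact (Ioi_subset_Ioi (by norm_num)).eventuallyLE
      refine h1.trans (h2.trans ?_)
      rw [integral_const_mul, (hI n hn).2]
      have h3 : ‖b n‖ ≤ |C| * (n : ℝ) ^ m :=
        (hb n hn).trans (mul_le_mul_of_nonneg_right (le_abs_self C) (by positivity))
      have h4 : (n : ℝ) ^ m ≤ (n : ℝ) ^ (A - 2) := Real.rpow_le_rpow_of_exponent_le hn' hm
      have h5 : (1 / (c * n)) ^ A = c⁻¹ ^ A * (n : ℝ) ^ (-A) := by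
        rw [one_div, mul_inv, Real.mul_rpow (by positivity) (by positivity),
          Real.inv_rpow hn0.le, Real.rpow_neg hn0.le]
      have h6 : (n : ℝ) ^ (A - 2) * (n : ℝ) ^ (-A) = (n : ℝ) ^ (-(2 : ℝ)) := by
        rw [← Real.rpow_add hn0]; congr 1; ring
      rw [h5]
      calc ‖b n‖ * (c⁻¹ ^ A * (n : ℝ) ^ (-A) * Real.Gamma A) ≤
            (|C| * (n : ℝ) ^ (A - 2)) * (c⁻¹ ^ A * (n : ℝ) ^ (-A) * Real.Gamma A) := by
            refine mul_le_mul_of_nonneg_right (h3.trans ?_) (by positivity)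
            exact mul_le_mul_of_nonneg_left h4 (abs_nonneg C)
        _ = |C| * (Real.Gamma A * c⁻¹ ^ A) * ((n : ℝ) ^ (A - 2) * (n : ℝ) ^ (-A)) := by
            ring
        _ = _ := by rw [h6]
  have hsum : Summable fun n : ℕ => ∫ t in Ioi (1 : ℝ), ‖(t : ℂ) ^ (s - 1) *
      (b n * (Real.exp (-(c * n) * t) : ℂ))‖ :=
    Summable.of_nonneg_of_le (fun n => integral_nonneg fun t => norm_nonneg _) hnorm
      (hZ.mul_left _)
  have e0 : ∀ t : ℝ, (t : ℂ) ^ (s - 1) * Th b c t =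
      ∑' n : ℕ, (t : ℂ) ^ (s - 1) * (b n * (Real.exp (-(c * n) * t) : ℂ)) := by
    intro t
    unfold Th
    rw [tsum_mul_left]
  simp only [e0]
  rw [← integral_tsum_of_summable_integral_norm hint hsum]
  have h7 : Summable fun n : ℕ => ‖∫ t in Ioi (1 : ℝ), (t : ℂ) ^ (s - 1) *
      (b n * (Real.exp (-(c * n) * t) : ℂ))‖ :=
    Summable.of_nonneg_of_le (fun n => norm_nonneg _) (fun n => norm_integral_le_integral_norm _)
      hsum
  refine (norm_tsum_le_tsum_norm h7).trans ?_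
  rw [← tsum_mul_left]
  refine Summable.tsum_le_tsum (fun n => (norm_integral_le_integral_norm _).trans (hnorm n)) h7
    (hZ.mul_left _)


end Pool.Agent.Y683.NF
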