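import Pool.Agent.Y683.NF.Gro
import Pool.Agent.Y683.NF.Fin

/-!
The twisted L-functions of a newform of weight `2m`, with a bound for the order of vanishing at the
centre.
-/

set_option autoImplicit false

namespace Pool.Agent.Y683.NF

open Complex Filter Topology Set ZMod
open UpperHalfPlane hiding I
open scoped MatrixGroups
open CongruenceSubgroup
open Pool.Agent.W192.CY
open Pool.Agent.TH936.HK (ext_series)
open Pool.Agent.W440.TW (gauss_ne_zero)

section coef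
variable {m : ℕ} {N : ℕ} [NeZero N] {η : DirichletCharacter ℂ N}
    {f : CuspForm (Gamma1 N : Subgroup (GL (Fin 2) ℝ)) (2 * m : ℤ)} {w : ℂ}

theorem cf_bd1 (hm : 1 ≤ m) (hf : NNewf m N η f w) (q : ℕ) (χ : DirichletCharacter ℂ q) :
    ∀ n : ℕ, 1 ≤ n → ‖χ (n : ZMod q) * cf f n‖ ≤ 1 * (n : ℝ) ^ ((m : ℝ) + 1 / 2) := by
  obtain ⟨μ, hμ⟩ := Pool.Agent.W804.CY.n_coef m hm N η f w hf
  intro n hn
  have hnpos : (0 : ℝ) < n := by exact_mod_cast hn
  have h2 := hμ.cle n hn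
  rw [norm_div, norm_pow, Complex.norm_natCast, div_le_iff₀ (by positivity)] at h2
  have h3 : (n.divisors.card : ℝ) ≤ n := by exact_mod_cast Nat.card_divisors_le_self n
  have h6 : Real.sqrt n * (n : ℝ) ^ (m - 1) = (n : ℝ) ^ ((m : ℝ) - 1 / 2) := by
    rw [Real.sqrt_eq_rpow, ← Real.rpow_natCast, ← Real.rpow_add hnpos]
    congr 1
    rw [Nat.cast_sub hm]
    push_cast
    ring
  have h7 : (n : ℝ) * (n : ℝ) ^ ((m : ℝ) - 1 / 2) = (n : ℝ) ^ ((m : ℝ) + 1 / 2) := by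
    rw [← Real.rpow_one_add' hnpos.le (by
      have : (1 : ℝ) ≤ m := by exact_mod_cast hm
      linarith)]
    congr 1
    ring
  rw [norm_mul, one_mul]
  calc ‖χ (n : ZMod q)‖ * ‖cf f n‖ ≤ 1 * (n.divisors.card * Real.sqrt n * (n : ℝ) ^ (m - 1)) :=
        mul_le_mul (DirichletCharacter.norm_le_one χ _) h2 (norm_nonneg _) zero_le_one
    _ = n.divisors.card * (n : ℝ) ^ ((m : ℝ) - 1 / 2) := by rw [one_mul, mul_assoc, h6]
    _ ≤ n * (n : ℝ) ^ ((m : ℝ) - 1 / 2) := mul_le_mul_of_nonneg_right h3 (by positivity)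
    _ = _ := h7

theorem low (hm : 1 ≤ m) (hf : NNewf m N η f w) (q : ℕ) (χ : DirichletCharacter ℂ q) :
    1 / 2 ≤ ‖∑' n : ℕ, χ (n : ZMod q) * cf f n * (n : ℂ) ^ (-(((m : ℝ) + 7 / 2 : ℝ) : ℂ))‖ := by
  have hbd := cf_bd1 hm hf q χ
  set g : ℕ → ℂ := fun n => χ (n : ZMod q) * cf f n * (n : ℂ) ^ (-(((m : ℝ) + 7 / 2 : ℝ) : ℂ))
    with hg
  have hg0 : g 0 = 0 := by simp only [hg, cf_zero, mul_zero, zero_mul]
  have hg1 : g 1 = 1 := by
    have h1 : cf f 1 = 1 := hf.one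
    simp [hg, h1]
  have hgn : ∀ n : ℕ, 1 ≤ n → ‖g n‖ ≤ (n : ℝ) ^ (-(3 : ℝ)) := by
    intro n hn
    have hnpos : (0 : ℝ) < n := by exact_mod_cast hn
    simp only [hg]
    rw [norm_mul, Complex.norm_natCast_cpow_of_pos hn, Complex.neg_re, Complex.ofReal_re]
    calc ‖χ (n : ZMod q) * cf f n‖ * (n : ℝ) ^ (-((m : ℝ) + 7 / 2)) ≤
          (1 * (n : ℝ) ^ ((m : ℝ) + 1 / 2)) * (n : ℝ) ^ (-((m : ℝ) + 7 / 2)) :=
          mul_le_mul_of_nonneg_right (hbd n hn) (by positivity)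
      _ = _ := by
          rw [one_mul, ← Real.rpow_add hnpos]
          congr 1
          ring
  have hz := hasSum_zeta_two
  have hsz : Summable (fun n : ℕ => 1 / ((n : ℝ)) ^ 2) := hz.summable
  have hz2 : ∑' n : ℕ, 1 / (((n + 2 : ℕ) : ℝ)) ^ 2 = Real.pi ^ 2 / 6 - 1 := by
    have h1 := hsz.sum_add_tsum_nat_add 2
    rw [hz.tsum_eq] at h1
    rw [Finset.sum_range_succ, Finset.sum_range_one] at h1
    simp only [Nat.cast_zero, Nat.cast_one] at h1
    norm_num at h1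
    have h2 : ∑' n : ℕ, 1 / (((n + 2 : ℕ) : ℝ)) ^ 2 = ∑' (i : ℕ), ((↑i + 2 : ℝ) ^ 2)⁻¹ := by
      refine tsum_congr fun n => ?_
      push_cast
      rw [one_div]
    rw [h2]
    linarith
  have hg2 : ∀ n : ℕ, ‖g (n + 2)‖ ≤ 1 / 2 * (1 / (((n + 2 : ℕ) : ℝ)) ^ 2) := by
    intro n
    have hn : (2 : ℝ) ≤ ((n + 2 : ℕ) : ℝ) := by push_cast; linarith [Nat.cast_nonneg (α := ℝ) n]
    refine (hgn (n + 2) (by omega)).trans ?_
    rw [Real.rpow_neg (by linarith)]
    have e : (((n + 2 : ℕ) : ℝ)) ^ (3 : ℝ) = (((n + 2 : ℕ) : ℝ)) ^ 3 := by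
      rw [← Real.rpow_natCast]; norm_num
    rw [e]
    set x : ℝ := ((n + 2 : ℕ) : ℝ)
    have hx : 0 < x := by linarith
    have h3 : 1 / 2 * (1 / x ^ 2) - (x ^ 3)⁻¹ = (x - 2) / (2 * x ^ 3) := by
      field_simp
    have h4 : 0 ≤ (x - 2) / (2 * x ^ 3) := div_nonneg (by linarith) (by positivity)
    linarith
  have hsz2 : Summable (fun n : ℕ => 1 / 2 * (1 / (((n + 2 : ℕ) : ℝ)) ^ 2)) :=
    (((summable_nat_add_iff 2).2 hsz)).mul_left _
  have hs2 : Summable (fun n : ℕ => g (n + 2)) := Summable.of_norm_bounded hsz2 hg2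
  have hs : Summable g := (summable_nat_add_iff 2).1 hs2
  have h1 := hs.sum_add_tsum_nat_add 2
  rw [Finset.sum_range_succ, Finset.sum_range_one, hg0, hg1, zero_add] at h1
  rw [← h1]
  have h2 : ‖∑' n : ℕ, g (n + 2)‖ ≤ 1 / 2 * (Real.pi ^ 2 / 6 - 1) := by
    refine (norm_tsum_le_tsum_norm (Summable.of_nonneg_of_le (fun n => norm_nonneg _) hg2 hsz2)).trans
      ?_
    rw [← hz2, ← tsum_mul_left]
    exact Summable.tsum_le_tsum hg2 (Summable.of_nonneg_of_le (fun n => norm_nonneg _) hg2 hsz2)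
      hsz2
  have h3 : 1 / 2 * (Real.pi ^ 2 / 6 - 1) ≤ 1 / 2 := by
    have := Real.pi_lt_d2
    have h4 := Real.pi_pos
    nlinarith
  have h4 : ‖(1 : ℂ)‖ - ‖∑' n : ℕ, g (n + 2)‖ ≤ ‖1 + ∑' n : ℕ, g (n + 2)‖ := by
    have := norm_sub_norm_le (1 : ℂ) (-∑' n : ℕ, g (n + 2))
    rw [norm_neg, sub_neg_eq_add] at this
    exact this
  rw [norm_one] at h4
  linarith

end coef

/-- the L-functions of the twists -/
theorem pack {m : ℕ} (hm : 1 ≤ m) {N : ℕ} [NeZero N] {η : DirichletCharacter ℂ N}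
    {f : CuspForm (Gamma1 N : Subgroup (GL (Fin 2) ℝ)) (2 * m : ℤ)} {w : ℂ}
    (hf : NNewf m N η f w) :
    ∃ (K : ℝ) (F : (q : ℕ) → DirichletCharacter ℂ q → ℂ → ℂ), 0 < K ∧
      (∀ (q : ℕ) (χ : DirichletCharacter ℂ q), 1 ≤ q → Nat.Coprime q N → χ.IsPrimitive →
        Differentiable ℂ (F q χ) ∧ (∀ s : ℂ, (m : ℝ) + 1 / 2 < s.re →
          HasProd (fun p : Nat.Primes => (1 - χ ((p : ℕ) : ZMod q) * cf f p *
            ((p : ℕ) : ℂ) ^ (-s) + χ ((p : ℕ) : ZMod q) ^ 2 * η ((p : ℕ) : ZMod N) *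
              ((p : ℕ) : ℂ) ^ (2 * (m : ℂ) - 1 - 2 * s))⁻¹) (F q χ s)) ∧
        F q χ (((m : ℝ) + 7 / 2 : ℝ) : ℂ) ≠ 0 ∧
        (analyticOrderNatAt (F q χ) m : ℝ) ≤ K * (1 + Real.log q)) ∧
      ∀ ε : ℝ, 0 < ε → ∃ q0 : ℝ, ∀ q : ℕ, q0 ≤ q → 1 ≤ q → Nat.Coprime q N →
        ∀ χ : DirichletCharacter ℂ q, χ.IsPrimitive → (q : ℝ) ^ (3 / 4 + ε) ≤ orderOf χ →
          F q χ m ≠ 0 := by
  classical
  have hNn : 0 < N := Nat.pos_of_ne_zero (NeZero.ne N)
  have hN1 : (1 : ℝ) ≤ N := by exact_mod_cast hNn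
  have hN0 : (0 : ℝ) < N := by linarith
  have hsN : 1 ≤ Real.sqrt N := Real.one_le_sqrt.2 hN1
  have hpi := Real.pi_pos
  have hm0 : (0 : ℝ) ≤ m := Nat.cast_nonneg m
  obtain ⟨K, A, hK, hA, hgrow⟩ := growth m ((m : ℝ) + 1 / 2) 1 (by positivity)
  have hex : ∀ (q : ℕ) (χ : DirichletCharacter ℂ q), ∃ F : ℂ → ℂ,
      (∀ (_ : NeZero q), 1 ≤ q → Nat.Coprime q N → χ.IsPrimitive → Differentiable ℂ F ∧
        (∀ s : ℂ, (m : ℝ) + 1 / 2 < s.re →
          F s = ∑' n : ℕ, χ (n : ZMod q) * cf f n * (n : ℂ) ^ (-s)) ∧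
        Cform m N (cf f) (w * η (q : ZMod N)) q χ (F m) ∧
        ∀ s : ℂ, ‖s - m‖ ≤ 8 → ‖F s‖ ≤ K * (Real.sqrt N * q) ^ A) := by
    intro q χ
    by_cases h : 1 ≤ q ∧ Nat.Coprime q N ∧ χ.IsPrimitive
    · obtain ⟨h1, hco, hpr⟩ := h
      have : NeZero q := ⟨by omega⟩
      have hq1 : (1 : ℝ) ≤ q := by exact_mod_cast h1
      have hRq : 1 ≤ Real.sqrt N * q := by nlinarith
      set W : ℂ := (w * η (q : ZMod N)) * χ (N : ZMod q) *
        gaussSum χ (stdAddChar (N := q)) ^ 2 / q with hW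
      have hWn : ‖W‖ = 1 := by
        have g1 : ‖η (q : ZMod N)‖ = 1 := by
          have hu : IsUnit (q : ZMod N) := (ZMod.isUnit_iff_coprime q N).2 hco
          have := η.unit_norm_eq_one hu.unit
          simpa using this
        rw [hW, ← Pool.Agent.W378.CY.root_number q χ hpr (w * η (q : ZMod N)) (N : ZMod q)]
        have g4 : ‖χ (-(N : ZMod q))‖ = 1 := by
          have hu : IsUnit (-(N : ZMod q)) := ((ZMod.isUnit_iff_coprime N q).2 hco.symm).neg
          have := χ.unit_norm_eq_one hu.unit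
          simpa using this
        rw [norm_div, norm_mul, norm_mul, norm_mul, hf.norm, g1, g4,
          Pool.Agent.W440.TW.gauss_conj χ, one_mul, one_mul, one_mul]
        exact div_self (norm_ne_zero_iff.2 (gauss_ne_zero χ hpr))
      have hfe := Pool.Agent.W597.CYN.n_twist m hm N η f w hf q χ hco hpr
      have hW0 : W ≠ 0 := by
        intro h
        rw [h, norm_zero] at hWn
        exact zero_ne_one hWn
      have hb0 : (fun n : ℕ => χ (n : ZMod q) * cf f n) 0 = 0 := by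
        simp only [cf_zero, mul_zero]
      obtain ⟨F, hFd, hFs, hFc, hFm⟩ := mellinK2 m hm
        (b := fun n => χ (n : ZMod q) * cf f n)
        (m := (m : ℝ) + 1 / 2) (C := 1) (by linarith : 0 < Real.sqrt N * q) hb0
        (by positivity) (cf_bd1 hm hf q χ) hW0 hfe
      refine ⟨F, fun _ _ _ _ => ⟨hFd, fun s hs => ?_, fun X Y hX hY hXY => ?_, fun s hs => ?_⟩⟩
      · exact ext_series F hFd (fun n => χ (n : ZMod q) * cf f n) hb0 ((m : ℝ) + 1 / 2)
          (fun s hs => (eul m hm N η f w hf q χ s hs).1)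
          ((m : ℝ) + 1 / 2 + 2) (fun s hs => hFs s hs) s hs
      · have hXY' : X * Y = (Real.sqrt N * q) ^ 2 / (4 * Real.pi ^ 2) := by
          rw [hXY, mul_pow, Real.sq_sqrt hN0.le]
        rw [hFc X Y hX hY hXY']
        have hpw : ∀ n : ℕ, (n : ℂ) ^ m = (n : ℂ) ^ (m - 1) * n := by
          intro n
          rw [← pow_succ]
          congr 1
          omega
        congr 1
        · refine tsum_congr fun n => ?_
          rw [hpw n, mul_div_assoc, mul_div_assoc, div_div]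
        · congr 1
          refine tsum_congr fun n => ?_
          rw [map_mul, map_div₀, map_pow, Complex.conj_natCast, hpw n, mul_div_assoc,
            mul_div_assoc, div_div]
      · rw [(hFm s).2]
        exact hgrow _ _ hRq hb0 (cf_bd1 hm hf q χ) W hWn hfe s hs (hFm s).1
    · exact ⟨fun _ => 0, fun _ h1 h2 h3 => absurd ⟨h1, h2, h3⟩ h⟩
  choose F hF using hex
  have hlog : 0 < Real.log (16 / 7) := Real.log_pos (by norm_num)
  set B : ℝ := |Real.log (2 * K)| + A * Real.log (Real.sqrt N) + A + 1 with hB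
  have hlsN : 0 ≤ Real.log (Real.sqrt N) := Real.log_nonneg hsN
  have hB0 : 0 < B := by
    have h1 := abs_nonneg (Real.log (2 * K))
    have h2 := mul_nonneg hA hlsN
    rw [hB]; linarith
  refine ⟨B / Real.log (16 / 7), F, by positivity, ?_, ?_⟩
  · intro q χ hq hqN hχ
    have : NeZero q := ⟨by omega⟩
    have hq1 : (1 : ℝ) ≤ q := by exact_mod_cast hq
    obtain ⟨g1, g2, g3, g4⟩ := hF q χ inferInstance hq hqN hχ
    have hlow : 1 / 2 ≤ ‖F q χ (((m : ℝ) + 7 / 2 : ℝ) : ℂ)‖ := by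
      rw [g2 _ (by rw [Complex.ofReal_re]; linarith)]
      exact low hm hf q χ
    refine ⟨g1, fun s hs => ?_, ?_, ?_⟩
    · rw [g2 s hs]
      exact (eul m hm N η f w hf q χ s hs).2
    · intro h
      rw [h, norm_zero] at hlow
      norm_num at hlow
    · set n := analyticOrderNatAt (F q χ) (m : ℂ) with hn
      have hz : ‖((((m : ℝ) + 7 / 2 : ℝ)) : ℂ) - m‖ = 7 / 2 := by
        have : ((((m : ℝ) + 7 / 2 : ℝ)) : ℂ) - m = ((7 / 2 : ℝ) : ℂ) := by
          push_cast; ring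
        rw [this, Complex.norm_real, Real.norm_of_nonneg (by norm_num)]
      have h3 := Pool.Agent.TH940.order_bound (F q χ) g1 (m : ℂ) (((m : ℝ) + 7 / 2 : ℝ) : ℂ)
        (R := 8) (M := K * (Real.sqrt N * q) ^ A) (by norm_num) (by rw [hz]; norm_num) g4
      rw [← hn, hz] at h3
      have h4 : (7 / 2 / 8 : ℝ) = 7 / 16 := by norm_num
      rw [h4] at h3
      have h5 : 1 / 2 ≤ K * (Real.sqrt N * q) ^ A * (7 / 16) ^ n := hlow.trans h3
      have hsp : 0 < Real.sqrt N := by linarith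
      have hRp : 0 < (Real.sqrt N * q) ^ A := by positivity
      have h6 : (16 / 7 : ℝ) ^ n ≤ 2 * K * (Real.sqrt N * q) ^ A := by
        have h7 : (16 / 7 : ℝ) ^ n * (7 / 16) ^ n = 1 := by
          rw [← mul_pow]; norm_num
        have h8 : 0 < (16 / 7 : ℝ) ^ n := by positivity
        calc (16 / 7 : ℝ) ^ n = (16 / 7 : ℝ) ^ n * (2 * (1 / 2)) := by ring
          _ ≤ (16 / 7 : ℝ) ^ n * (2 * (K * (Real.sqrt N * q) ^ A * (7 / 16) ^ n)) := by gcongr
          _ = 2 * K * (Real.sqrt N * q) ^ A * ((16 / 7 : ℝ) ^ n * (7 / 16) ^ n) := by ring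
          _ = _ := by rw [h7, mul_one]
      have h10 := Real.log_le_log (by positivity) h6
      have e10 : Real.log (2 * K * (Real.sqrt N * q) ^ A) =
          Real.log (2 * K) + A * (Real.log (Real.sqrt N) + Real.log q) := by
        rw [Real.log_mul (by positivity) (by positivity), Real.log_rpow (by positivity),
          Real.log_mul hsp.ne' (by positivity)]
      rw [Real.log_pow, e10] at h10
      have h11 : 0 ≤ Real.log q := Real.log_nonneg hq1
      rw [div_mul_eq_mul_div, le_div_iff₀ hlog]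
      have h12 := le_abs_self (Real.log (2 * K))
      have h13 : 0 ≤ |Real.log (2 * K)| := abs_nonneg _
      rw [hB]
      nlinarith [mul_nonneg h13 h11, mul_nonneg (mul_nonneg hA hlsN) h11, mul_nonneg hA hlsN,
        mul_nonneg hA h11]
  · intro ε hε
    obtain ⟨q0, hq0⟩ := nonvan hm hf hε
    refine ⟨q0, fun q hq hq1 hqN χ hχ hord => ?_⟩
    have : NeZero q := ⟨by omega⟩
    exact hq0 q hq hqN (fun ψ => F q ψ m)
      (fun ψ hψ => (hF q ψ inferInstance hq1 hqN hψ).2.2.1) χ hχ hord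

end Pool.Agent.Y683.NF
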